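import Pool.Agent.Lib.SymForcing.Df

/-!
Elementary set theory in a model of ZF; isomorphisms of structures.
-/

namespace Pool.Agent.Lib.SymForcing

open Pool.Agent.Lib.Forcing Function

universe u

variable {M : Type u} {E : M → M → Prop}

theorem exists_pr_of (hp : ∀ x y, ∃ p, ∀ z, E z p ↔ z = x ∨ z = y)
    (he : ∀ x y, (∀ z, E z x ↔ E z y) → x = y) (x y : M) : ∃ p, Pr E x y p := by
  obtain ⟨s, hs⟩ := hp x x
  obtain ⟨d, hd⟩ := hp x y
  obtain ⟨p, h⟩ := hp s d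
  refine ⟨p, fun z => (h z).trans (or_congr ⟨fun e t => ?_, fun e => he _ _ fun t => ?_⟩
    ⟨fun e t => e ▸ hd t, fun e => he _ _ fun t => (e t).trans (hd t).symm⟩)⟩
  · rw [e, hs, or_self]
  · rw [e, hs, or_self]

theorem exists_suc_of (hp : ∀ x y, ∃ p, ∀ z, E z p ↔ z = x ∨ z = y)
    (hu : ∀ x, ∃ u, ∀ z, E z u ↔ ∃ y, E y x ∧ E z y) (x : M) : ∃ y, Suc E x y := by
  obtain ⟨s, hs⟩ := hp x x
  obtain ⟨d, hd⟩ := hp x s
  obtain ⟨u, h⟩ := hu d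
  refine ⟨u, fun z => (h z).trans ⟨?_, ?_⟩⟩
  · rintro ⟨y, hy, hz⟩
    rcases (hd y).1 hy with rfl | rfl
    · exact Or.inl hz
    · exact Or.inr (by simpa using (hs z).1 hz)
  · rintro (hz | rfl)
    · exact ⟨x, (hd x).2 (Or.inl rfl), hz⟩
    · exact ⟨s, (hd s).2 (Or.inr rfl), (hs z).2 (Or.inl rfl)⟩

namespace ZF

variable (h : ZF E)
include h

theorem exists_pr (x y : M) : ∃ p, Pr E x y p := exists_pr_of h.pair h.ext x y

theorem exists_suc (x : M) : ∃ y, Suc E x y := exists_suc_of h.pair h.union x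

theorem pr_unique {x y p q : M} (hp : Pr E x y p) (hq : Pr E x y q) : p = q :=
  h.ext _ _ fun z => (hp z).trans (hq z).symm

theorem pr_inj {x y x' y' p : M} (hp : Pr E x y p) (hq : Pr E x' y' p) :
    x = x' ∧ y = y' := by
  have key : ∀ {x y x' y' : M}, Pr E x y p → Pr E x' y' p → x = x' ∧ (y = x' ∨ y = y') := by
    intro x y x' y' hp hq
    obtain ⟨s, hs⟩ := h.pair x x
    obtain ⟨d, hd⟩ := h.pair x y
    constructor
    · rcases (hq s).1 ((hp s).2 (Or.inl fun t => by simp [hs t])) with h1 | h1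
      · exact (h1 x).1 ((hs x).2 (Or.inl rfl))
      · have := (hs x').1 ((h1 x').2 (Or.inl rfl))
        simp only [or_self] at this
        exact this.symm
    · rcases (hq d).1 ((hp d).2 (Or.inr hd)) with h1 | h1
      · exact Or.inl ((h1 y).1 ((hd y).2 (Or.inr rfl)))
      · exact (h1 y).1 ((hd y).2 (Or.inr rfl))
  obtain ⟨a, b⟩ := key hp hq
  obtain ⟨c, d⟩ := key hq hp
  refine ⟨a, ?_⟩
  rcases b with b | b
  · rcases d with d | d
    · rw [b, d, a]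
    · exact d.symm
  · exact b

theorem fn_unique {A f x y y' : M} {R : M → M → Prop} (hf : Fn E A R f)
    (h1 : Ap E f x y) (h2 : Ap E f x y') : y = y' := by
  obtain ⟨p, hp, hpf⟩ := h1
  obtain ⟨a, b, ha, hab⟩ := hf.1 p hpf
  obtain ⟨rfl, rfl⟩ := h.pr_inj hp hab
  exact (hf.2.1 x ha).unique ⟨p, hp, hpf⟩ h2

theorem fn_dom {A f x y : M} {R : M → M → Prop} (hf : Fn E A R f)
    (h1 : Ap E f x y) : E x A := by
  obtain ⟨p, hp, hpf⟩ := h1
  obtain ⟨a, b, ha, hab⟩ := hf.1 p hpf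
  obtain ⟨rfl, rfl⟩ := h.pr_inj hp hab
  exact ha

theorem fn_ext {A A' f g : M} {R R' : M → M → Prop} (hf : Fn E A R f)
    (hg : Fn E A' R' g) (e : ∀ x y, Ap E f x y ↔ Ap E g x y) : f = g := by
  refine h.ext _ _ fun p => ⟨fun hp => ?_, fun hp => ?_⟩
  · obtain ⟨a, b, -, hab⟩ := hf.1 p hp
    obtain ⟨q, hq, hqg⟩ := (e a b).1 ⟨p, hab, hp⟩
    rwa [h.pr_unique hab hq]
  · obtain ⟨a, b, -, hab⟩ := hg.1 p hp
    obtain ⟨q, hq, hqg⟩ := (e a b).2 ⟨p, hab, hp⟩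
    rwa [h.pr_unique hab hq]

theorem not_mem_self (x : M) : ¬ E x x := fun hx => by
  obtain ⟨s, hs⟩ := h.pair x x
  obtain ⟨y, hy, hy'⟩ := h.found s ⟨x, (hs x).2 (Or.inl rfl)⟩
  have : y = x := by simpa using (hs y).1 hy
  subst this
  exact hy' y hx hy

theorem exists_prod (A B : M) : ∃ P, ∀ x y p, E x A → E y B → Pr E x y p → E p P := by
  obtain ⟨d, hd⟩ := h.pair A B
  obtain ⟨u, hu⟩ := h.union d
  obtain ⟨p1, h1⟩ := h.power u
  obtain ⟨p2, h2⟩ := h.power p1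
  refine ⟨p2, fun x y p hx hy hp => (h2 p).2 fun z hz => (h1 z).2 fun t ht => (hu t).2 ?_⟩
  rcases (hp z).1 hz with e | e
  · exact ⟨A, (hd A).2 (Or.inl rfl), (e t).1 ht ▸ hx⟩
  · rcases (e t).1 ht with rfl | rfl
    · exact ⟨A, (hd A).2 (Or.inl rfl), hx⟩
    · exact ⟨B, (hd B).2 (Or.inr rfl), hy⟩

/-- The graph of a definable relation between two sets. -/
theorem exists_graph (A B : M) (Φ : M → M → Prop) [Df E (fun v => Φ (v 1) (v 0))] :
    ∃ g, (∀ p, E p g → ∃ x y, E x A ∧ Pr E x y p) ∧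
      ∀ x y, Ap E g x y ↔ E x A ∧ E y B ∧ Φ x y := by
  have := h.nonempty
  obtain ⟨P, hP⟩ := h.exists_prod A B
  obtain ⟨g, hg⟩ := h.sep' (fun p => ∃ x y, E x A ∧ E y B ∧ Pr E x y p ∧ Φ x y) P
  refine ⟨g, fun p hp => ?_, fun x y => ⟨?_, ?_⟩⟩
  · obtain ⟨-, x, y, hx, -, hp, -⟩ := (hg p).1 hp
    exact ⟨x, y, hx, hp⟩
  · rintro ⟨p, hp, hpg⟩
    obtain ⟨-, x', y', hx, hy, hp', hΦ⟩ := (hg p).1 hpg
    obtain ⟨rfl, rfl⟩ := h.pr_inj hp hp'
    exact ⟨hx, hy, hΦ⟩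
  · rintro ⟨hx, hy, hΦ⟩
    obtain ⟨p, hp⟩ := h.exists_pr x y
    exact ⟨p, hp, (hg p).2 ⟨hP x y p hx hy hp, x, y, hx, hy, hp, hΦ⟩⟩

/-- A set containing all functions from `A` to `B`. -/
theorem exists_fnspace (A B : M) :
    ∃ Q, ∀ (R : M → M → Prop) g, Fn E A R g → (∀ x y, R x y → E y B) → E g Q := by
  obtain ⟨P, hP⟩ := h.exists_prod A B
  obtain ⟨Q, hQ⟩ := h.power P
  refine ⟨Q, fun R g hg hR => (hQ g).2 fun p hp => ?_⟩
  obtain ⟨x, y, hx, hxy⟩ := hg.1 p hp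
  exact hP x y p hx (hR x y (hg.2.2 x y ⟨p, hxy, hp⟩)) hxy

theorem exists_om : ∃ w, Om E w := by
  have := h.nonempty
  obtain ⟨w, hw⟩ := h.inf
  have : ∀ (t : (ℕ → M) → M) [Tm t], Df E (fun v => Ind E (t v)) := fun t _ => by
    unfold Ind Emp Suc; infer_instance
  obtain ⟨o, ho⟩ := h.sep' (fun x => ∀ v, Ind E v → E x v) w
  refine ⟨o, ⟨?_, fun x hx => ?_⟩, fun v hv x hx => ((ho x).1 hx).2 v hv⟩
  · obtain ⟨e, he, hew⟩ := hw.1
    refine ⟨e, he, (ho e).2 ⟨hew, fun v hv => ?_⟩⟩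
    obtain ⟨e', he', hev⟩ := hv.1
    rwa [h.ext e e' fun z => iff_of_false (he z) (he' z)]
  · obtain ⟨y, hy, hyw⟩ := hw.2 x ((ho x).1 hx).1
    refine ⟨y, hy, (ho y).2 ⟨hyw, fun v hv => ?_⟩⟩
    obtain ⟨y', hy', hyv⟩ := hv.2 x (((ho x).1 hx).2 v hv)
    rwa [h.ext y y' fun z => (hy z).trans (hy' z).symm]

theorem om_unique {w w' : M} (h1 : Om E w) (h2 : Om E w') : w = w' :=
  h.ext _ _ fun z => ⟨h1.2 _ h2.1 z, h2.2 _ h1.1 z⟩

theorem isFin_single {s a : M} (hs : ∀ z, E z s ↔ z = a) : IsFin E s := by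
  have := h.nonempty
  obtain ⟨w, hw⟩ := h.exists_om
  obtain ⟨e, he, hew⟩ := hw.1.1
  obtain ⟨n, hn, hnw⟩ := hw.1.2 e hew
  obtain ⟨g, hg1, hg⟩ := h.exists_graph n s (fun x y => x = x)
  have hn' : ∀ x, E x n ↔ x = e := fun x => by simp [hn x, he x]
  refine ⟨w, n, g, hw, hnw, ⟨hg1, fun x hx => ⟨a, ?_, fun y hy => ?_⟩, fun x y hxy => ?_⟩,
    fun x x' y h1 h2 => ?_, fun y hy => ⟨e, ?_⟩⟩
  · simp [hg, hx, hs]
  · exact (hs y).1 ((hg x y).1 hy).2.1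
  · exact ((hg x y).1 hxy).2.1
  · rw [(hn' x).1 ((hg _ _).1 h1).1, (hn' x').1 ((hg _ _).1 h2).1]
  · simp [hg, hy, hn']

theorem isFin_pair {s a b : M} (hab : a ≠ b) (hs : ∀ z, E z s ↔ z = a ∨ z = b) : IsFin E s := by
  have := h.nonempty
  obtain ⟨w, hw⟩ := h.exists_om
  obtain ⟨e, he, hew⟩ := hw.1.1
  obtain ⟨n, hn, hnw⟩ := hw.1.2 e hew
  obtain ⟨m, hm, hmw⟩ := hw.1.2 n hnw
  obtain ⟨g, hg1, hg⟩ := h.exists_graph m s (fun x y => x = e ↔ y = a)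
  have hm' : ∀ x, E x m ↔ x = e ∨ x = n := fun x => by simp [hm x, hn x, he x]
  have hne : n ≠ e := fun h' => he e (h' ▸ (hn e).2 (Or.inr rfl))
  simp only [hm', hs] at hg
  refine ⟨w, m, g, hw, hmw, ⟨hg1, fun x hx => ?_, fun x y hxy => ?_⟩,
    fun x x' y h1 h2 => ?_, fun y hy => ?_⟩
  · rcases (hm' x).1 hx with rfl | rfl
    · exact ⟨a, by simp [hg], fun y hy => ((hg _ _).1 hy).2.2.1 rfl⟩
    · refine ⟨b, by simp [hg, hne, hab.symm], fun y hy => ?_⟩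
      have := (hg _ _).1 hy
      tauto
  · exact (hs y).2 ((hg x y).1 hxy).2.1
  · have h1 := (hg _ _).1 h1
    have h2 := (hg _ _).1 h2
    by_cases hy : y = a
    · rw [h1.2.2.2 hy, h2.2.2.2 hy]
    · rw [h1.1.resolve_left (mt h1.2.2.1 hy), h2.1.resolve_left (mt h2.2.2.1 hy)]
  · rcases (hs y).1 hy with rfl | rfl
    · exact ⟨e, by simp [hg]⟩
    · exact ⟨n, by simp [hg, hne, hab.symm]⟩

end ZF

/-- Isomorphisms of membership structures. -/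
structure Iso {M M' : Type u} (E : M → M → Prop) (E' : M' → M' → Prop) where
  f : M ≃ M'
  mem : ∀ a b, E' (f a) (f b) ↔ E a b

namespace Iso

variable {M' : Type u} {E' : M' → M' → Prop} (e : Iso E E')

theorem eq (a b : M) : e.f a = e.f b ↔ a = b := e.f.injective.eq_iff

theorem all {p : M' → Prop} : (∀ y, p y) ↔ ∀ x, p (e.f x) := e.f.surjective.forall

theorem ex {p : M' → Prop} : (∃ y, p y) ↔ ∃ x, p (e.f x) := e.f.surjective.exists

theorem sat (φ : Fml) (v : ℕ → M) : Sat E' φ (fun n => e.f (v n)) ↔ Sat E φ v := by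
  induction φ generalizing v with
  | mem i j => exact e.mem _ _
  | eq i j => exact e.eq _ _
  | neg φ ih => exact not_congr (ih v)
  | and φ ψ ih1 ih2 => exact and_congr (ih1 v) (ih2 v)
  | all i φ ih =>
    simp only [Sat]
    rw [e.all]
    refine forall_congr' fun a => ?_
    rw [← ih, ← comp_def e.f, ← comp_update]
    rfl

theorem emp (a : M) : Emp E' (e.f a) ↔ Emp E a := by simp only [Emp, e.all, e.mem]

theorem suc (a b : M) : Suc E' (e.f a) (e.f b) ↔ Suc E a b := by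
  simp only [Suc, e.all, e.mem, e.eq]

theorem pr (a b c : M) : Pr E' (e.f a) (e.f b) (e.f c) ↔ Pr E a b c := by
  simp only [Pr, e.all, e.mem, e.eq]

theorem ap (a b c : M) : Ap E' (e.f a) (e.f b) (e.f c) ↔ Ap E a b c := by
  simp only [Ap, e.ex, e.mem, e.pr]

theorem ap2 (a b c d : M) : Ap2 E' (e.f a) (e.f b) (e.f c) (e.f d) ↔ Ap2 E a b c d := by
  simp only [Ap2, e.ex, e.ap, e.pr]

end Iso

end Pool.Agent.Lib.SymForcing
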