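import Mathlib

/-!
The Cohen algebra: regular open subsets of `J → Bool`, with the action of permutations of `J`.
-/

namespace Pool.Agent.Lib.SymForcing

open TopologicalSpace Heyting Set

/-- The complete Boolean algebra adding a generic function `J → Bool` by finite conditions. -/
def Coh (J : Type) : Type := Regular (Opens (J → Bool))

namespace Coh

variable {J : Type}

noncomputable instance : CompleteBooleanAlgebra (Coh J) :=
  { (inferInstance : BooleanAlgebra (Regular (Opens (J → Bool)))),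
    (Regular.gi (α := Opens (J → Bool))).liftCompleteLattice with }

/-- The underlying set. -/
def pt (b : Coh J) : Set (J → Bool) := (Regular.val b : Opens (J → Bool))

theorem le_iff {a b : Coh J} : a ≤ b ↔ pt a ⊆ pt b := Iff.rfl

theorem pt_inf (a b : Coh J) : pt (a ⊓ b) = pt a ∩ pt b := rfl

theorem pt_bot : pt (⊥ : Coh J) = ∅ := rfl

theorem pt_top : pt (⊤ : Coh J) = univ := rfl

theorem isOpen_pt (b : Coh J) : IsOpen (pt b) := (Regular.val b : Opens (J → Bool)).2

theorem ext {a b : Coh J} (h : pt a = pt b) : a = b :=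
  le_antisymm (le_iff.2 h.le) (le_iff.2 h.ge)

theorem ne_bot_iff {b : Coh J} : b ≠ ⊥ ↔ (pt b).Nonempty := by
  rw [nonempty_iff_ne_empty, ← pt_bot]
  exact not_congr ⟨fun h => h ▸ rfl, ext⟩

theorem isOpen_eq_const_of {j : J} {v : Bool} : IsOpen {ω : J → Bool | ω j = v} :=
  (isOpen_discrete ({v} : Set Bool)).preimage (continuous_apply (A := fun _ : J => Bool) j)

/-- The open set where coordinate `j` has the value `v`. -/
def olit (j : J) (v : Bool) : Opens (J → Bool) :=
  ⟨{ω | ω j = v}, isOpen_eq_const_of (j := j)⟩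

theorem olit_compl (j : J) (v : Bool) : (olit j v)ᶜ = olit j (!v) := by
  refine IsCompl.compl_eq ⟨disjoint_iff.2 (Opens.ext ?_), codisjoint_iff.2 (Opens.ext ?_)⟩
  · ext ω; cases v <;> simp [olit]
  · ext ω; cases v <;> simp [olit]

/-- Literals. -/
def lit (j : J) (v : Bool) : Coh J :=
  ⟨olit j v, by rw [Heyting.IsRegular, olit_compl, olit_compl, Bool.not_not]⟩

theorem mem_lit {j : J} {v : Bool} {ω : J → Bool} : ω ∈ pt (lit j v) ↔ ω j = v := Iff.rfl

theorem compl_lit (j : J) (v : Bool) : (lit j v)ᶜ = lit j (!v) := Subtype.ext (olit_compl j v)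

/-- Finite conditions. -/
noncomputable def cnd (s : Finset (J × Bool)) : Coh J := s.inf fun x => lit x.1 x.2

theorem mem_cnd {s : Finset (J × Bool)} {ω : J → Bool} : ω ∈ pt (cnd s) ↔ ∀ x ∈ s, ω x.1 = x.2 := by
  classical
  induction s using Finset.induction_on with
  | empty => simp [cnd, pt_top]
  | insert a s _ ih =>
    rw [cnd, Finset.inf_insert, pt_inf, mem_inter_iff, ← cnd, ih, mem_lit, Finset.forall_mem_insert]

theorem dense (b : Coh J) (hb : b ≠ ⊥) : ∃ s, cnd s ≠ ⊥ ∧ cnd s ≤ b := by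
  classical
  obtain ⟨ω, hω⟩ := ne_bot_iff.1 hb
  obtain ⟨I, u, h1, h2⟩ := isOpen_pi_iff.1 (isOpen_pt b) ω hω
  refine ⟨I.image fun j => (j, ω j), ne_bot_iff.2 ⟨ω, mem_cnd.2 (by simp)⟩,
    le_iff.2 fun ω' h => h2 fun j hj => ?_⟩
  have := mem_cnd.1 h (j, ω j) (Finset.mem_image_of_mem _ hj)
  simp only at this
  rw [this]
  exact (h1 j hj).2

theorem iSup_eq_top {ι : Sort*} (b : ι → Coh J)
    (h : ∀ (s : Finset (J × Bool)) ω, ω ∈ pt (cnd s) → ∃ i ω', ω' ∈ pt (cnd s) ∧ ω' ∈ pt (b i)) :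
    ⨆ i, b i = ⊤ := by
  by_contra hne
  obtain ⟨s, h1, h2⟩ := dense (⨆ i, b i)ᶜ (by simpa using hne)
  obtain ⟨ω, hω⟩ := ne_bot_iff.1 h1
  obtain ⟨i, ω', h3, h4⟩ := h s ω hω
  have : ω' ∈ pt ((⨆ i, b i)ᶜ ⊓ ⨆ i, b i) := ⟨h2 h3, le_iff.1 (le_iSup b i) h4⟩
  rw [compl_inf_eq_bot] at this
  exact this

/-- Action on open sets. -/
def oact (g : Equiv.Perm J) : Opens (J → Bool) ≃o Opens (J → Bool) where
  toFun U := ⟨{ω | ω ∘ g ∈ U}, U.2.preimage (by fun_prop)⟩
  invFun U := ⟨{ω | ω ∘ g.symm ∈ U}, U.2.preimage (by fun_prop)⟩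
  left_inv U := by ext ω; simp [Function.comp_assoc]
  right_inv U := by ext ω; simp [Function.comp_assoc]
  map_rel_iff' := by
    intro U V
    refine ⟨fun h ω hω => ?_, fun h ω hω => h hω⟩
    have := @h (ω ∘ g.symm) (by simpa [Function.comp_assoc] using hω)
    simpa [Function.comp_assoc] using this

/-- Action on regular open sets. -/
def ract (g : Equiv.Perm J) : Coh J ≃o Coh J where
  toFun b := ⟨oact g b.1, by rw [Heyting.IsRegular, ← map_compl, ← map_compl, b.2.eq]⟩
  invFun b := ⟨(oact g).symm b.1, by rw [Heyting.IsRegular, ← map_compl, ← map_compl, b.2.eq]⟩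
  left_inv b := Subtype.ext ((oact g).symm_apply_apply _)
  right_inv b := Subtype.ext ((oact g).apply_symm_apply _)
  map_rel_iff' := (oact g).le_iff_le

theorem mem_ract {g : Equiv.Perm J} {b : Coh J} {ω : J → Bool} :
    ω ∈ pt (ract g b) ↔ ω ∘ g ∈ pt b := Iff.rfl

/-- The action of the permutations of the coordinates. -/
def hom : Equiv.Perm J →* (Coh J ≃o Coh J) where
  toFun := ract
  map_one' := RelIso.ext fun _ => rfl
  map_mul' _ _ := RelIso.ext fun _ => rfl

theorem hom_lit (g : Equiv.Perm J) (j : J) (v : Bool) : hom g (lit j v) = lit (g j) v := rfl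

theorem mem_hom {g : Equiv.Perm J} {b : Coh J} {ω : J → Bool} :
    ω ∈ pt (hom g b) ↔ ω ∘ g ∈ pt b := Iff.rfl

end Coh

end Pool.Agent.Lib.SymForcing
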