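import Pool.Agent.Lib.Forcing.Defs

/-!
Models of ZF (no choice), and the first-order notions of bijection, finite and denumerable set.
Every quantifier ranges over the carrier `M` of the structure.
-/

namespace Pool.Agent.Lib.SymForcing

open Pool.Agent.Lib.Forcing

universe u

variable {M : Type u} (E : M → M → Prop)

/-- `(M, E)` is a model of ZF. -/
structure ZF : Prop where
  ext : ∀ x y, (∀ z, E z x ↔ E z y) → x = y
  found : ∀ x, (∃ y, E y x) → ∃ y, E y x ∧ ∀ z, E z y → ¬ E z x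
  pair : ∀ x y, ∃ p, ∀ z, E z p ↔ z = x ∨ z = y
  union : ∀ x, ∃ u, ∀ z, E z u ↔ ∃ y, E y x ∧ E z y
  power : ∀ x, ∃ p, ∀ z, E z p ↔ ∀ t, E t z → E t x
  inf : ∃ w, Ind E w
  sep : ∀ (φ : Fml) (v : ℕ → M) (x : M), ∃ y, ∀ z,
    E z y ↔ E z x ∧ Sat E φ (Function.update v 0 z)
  repl : ∀ (φ : Fml) (v : ℕ → M) (x : M),
    (∀ a, E a x → ∃! b, Sat E φ (Function.update (Function.update v 0 a) 1 b)) →
    ∃ y, ∀ b, E b y ↔ ∃ a, E a x ∧ Sat E φ (Function.update (Function.update v 0 a) 1 b)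

/-- `x ⊆ y`. -/
def Sub (x y : M) : Prop := ∀ z, E z x → E z y

/-- `((x, y), z) ∈ f`. -/
def Ap2 (f x y z : M) : Prop := ∃ p, Pr E x y p ∧ Ap E f p z

/-- `f` is a bijection from `A` onto `B`. -/
def Bij (f A B : M) : Prop :=
  Fn E A (fun _ y => E y B) f ∧ (∀ x x' y, Ap E f x y → Ap E f x' y → x = x') ∧
    ∀ y, E y B → ∃ x, Ap E f x y

/-- `x` is equipotent to a natural number. -/
def IsFin (x : M) : Prop := ∃ w n f, Om E w ∧ E n w ∧ Bij E f n x

/-- `x` is equipotent to `ω`. -/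
def IsDenum (x : M) : Prop := ∃ w f, Om E w ∧ Bij E f w x

end Pool.Agent.Lib.SymForcing
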