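import Pool.Agent.Lib.SymForcing.Defs

/-!
Definable predicates (with parameters) in a structure, inferred by instance resolution;
separation for them in any model of ZF; invariance under isomorphisms.
-/

namespace Pool.Agent.Lib.SymForcing

open Pool.Agent.Lib.Forcing Function

universe u

/-- Renaming of variables. -/
def ren (f : ℕ → ℕ) : Fml → Fml
  | .mem i j => .mem (f i) (f j)
  | .eq i j => .eq (f i) (f j)
  | .neg φ => .neg (ren f φ)
  | .and φ ψ => .and (ren f φ) (ren f ψ)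
  | .all i φ => .all (f i) (ren f φ)

/-- A bound for the variables of a formula. -/
def bd : Fml → ℕ
  | .mem i j => max i j + 1
  | .eq i j => max i j + 1
  | .neg φ => bd φ
  | .and φ ψ => max (bd φ) (bd ψ)
  | .all _ φ => bd φ

variable {M : Type u} {E : M → M → Prop}

theorem sat_ren {f : ℕ → ℕ} (hf : Injective f) (φ : Fml) (v : ℕ → M) :
    Sat E (ren f φ) v ↔ Sat E φ (v ∘ f) := by
  induction φ generalizing v with
  | mem i j => rfl
  | eq i j => rfl
  | neg φ ih => simp only [ren, Sat, ih]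
  | and φ ψ ih1 ih2 => simp only [ren, Sat, ih1, ih2]
  | all i φ ih => simp only [ren, Sat, ih, update_comp_eq_of_injective _ hf]

theorem sat_congr (φ : Fml) {v w : ℕ → M} (h : ∀ i < bd φ, v i = w i) :
    Sat E φ v ↔ Sat E φ w := by
  induction φ generalizing v w with
  | mem i j => simp only [Sat]; rw [h i (by simp [bd]), h j (by simp [bd])]
  | eq i j => simp only [Sat]; rw [h i (by simp [bd]), h j (by simp [bd])]
  | neg φ ih => exact not_congr (ih h)
  | and φ ψ ih1 ih2 =>
    exact and_congr (ih1 fun i hi => h i (lt_max_of_lt_left hi))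
      (ih2 fun i hi => h i (lt_max_of_lt_right hi))
  | all i φ ih =>
    refine forall_congr' fun a => ih fun j hj => ?_
    by_cases e : j = i
    · subst e; simp
    · simp [e, h j hj]

/-- Interleaving of two assignments. -/
def mrg (v w : ℕ → M) (n : ℕ) : M := if n % 2 = 0 then v (n / 2) else w (n / 2)

@[simp] theorem mrg_even (v w : ℕ → M) (n : ℕ) : mrg v w (2 * n) = v n := by simp [mrg]

@[simp] theorem mrg_odd (v w : ℕ → M) (n : ℕ) : mrg v w (2 * n + 1) = w n := by
  have h1 : (2 * n + 1) % 2 = 1 := by omega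
  have h2 : (2 * n + 1) / 2 = n := by omega
  simp [mrg, h1, h2]

variable (E) in
/-- `P` is definable with parameters. -/
class Df (P : (ℕ → M) → Prop) : Prop where
  ex : ∃ (φ : Fml) (w : ℕ → M), ∀ v, P v ↔ Sat E φ (mrg v w)

/-- `t` is a variable or a parameter. -/
class Tm (t : (ℕ → M) → M) : Prop where
  ex : (∃ i, ∀ v, t v = v i) ∨ ∃ c, ∀ v, t v = c

instance Tm.var (i : ℕ) : Tm (fun v : ℕ → M => v i) := ⟨Or.inl ⟨i, fun _ => rfl⟩⟩

instance (priority := low) Tm.const (c : M) : Tm (fun _ : ℕ → M => c) :=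
  ⟨Or.inr ⟨c, fun _ => rfl⟩⟩

instance Tm.shift (t : (ℕ → M) → M) [h : Tm t] (g : ℕ → ℕ) :
    Tm (fun v : ℕ → M => t (fun n => v (g n))) := by
  rcases h.ex with ⟨i, hi⟩ | ⟨c, hc⟩
  · exact ⟨Or.inl ⟨g i, fun v => hi _⟩⟩
  · exact ⟨Or.inr ⟨c, fun v => hc _⟩⟩

theorem Tm.two (s t : (ℕ → M) → M) [hs : Tm s] [ht : Tm t] [Nonempty M] :
    ∃ (i j : ℕ) (w : ℕ → M), ∀ v, mrg v w i = s v ∧ mrg v w j = t v := by
  obtain ⟨c0⟩ := ‹Nonempty M›
  rcases hs.ex with ⟨i, hi⟩ | ⟨c, hc⟩ <;> rcases ht.ex with ⟨j, hj⟩ | ⟨d, hd⟩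
  · exact ⟨2 * i, 2 * j, fun _ => c0, fun v => by simp [hi, hj]⟩
  · exact ⟨2 * i, 2 * 0 + 1, fun _ => d, fun v => by simp only [hi, hd, mrg_even, mrg_odd, and_self]⟩
  · exact ⟨2 * 0 + 1, 2 * j, fun _ => c, fun v => by simp only [hc, hj, mrg_even, mrg_odd, and_self]⟩
  · exact ⟨2 * 0 + 1, 2 * 1 + 1, fun n => if n = 0 then c else d, fun v => by
      simp only [hc, hd, mrg_odd]; simp⟩

namespace Df

theorem congr {P Q : (ℕ → M) → Prop} [h : Df E P] (e : ∀ v, P v ↔ Q v) : Df E Q := by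
  obtain ⟨φ, w, h⟩ := h.ex
  exact ⟨φ, w, fun v => (e v).symm.trans (h v)⟩

instance mem (s t : (ℕ → M) → M) [Tm s] [Tm t] [Nonempty M] : Df E (fun v => E (s v) (t v)) := by
  obtain ⟨i, j, w, h⟩ := Tm.two s t
  exact ⟨.mem i j, w, fun v => by simp only [Sat, h v]⟩

instance eq (s t : (ℕ → M) → M) [Tm s] [Tm t] [Nonempty M] : Df E (fun v => s v = t v) := by
  obtain ⟨i, j, w, h⟩ := Tm.two s t
  exact ⟨.eq i j, w, fun v => by simp only [Sat, h v]⟩

instance not (P : (ℕ → M) → Prop) [h : Df E P] : Df E (fun v => ¬ P v) := by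
  obtain ⟨φ, w, h⟩ := h.ex
  exact ⟨.neg φ, w, fun v => not_congr (h v)⟩

instance ne (s t : (ℕ → M) → M) [Tm s] [Tm t] [Nonempty M] : Df E (fun v => s v ≠ t v) :=
  Df.not (fun v => s v = t v)

instance and (P Q : (ℕ → M) → Prop) [h1 : Df E P] [h2 : Df E Q] : Df E (fun v => P v ∧ Q v) := by
  obtain ⟨φ, w, h1⟩ := h1.ex
  obtain ⟨ψ, w', h2⟩ := h2.ex
  let f : ℕ → ℕ := fun n => if n % 2 = 0 then n else 2 * (2 * (n / 2)) + 1
  let g : ℕ → ℕ := fun n => if n % 2 = 0 then n else 2 * (2 * (n / 2) + 1) + 1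
  have hf : Injective f := fun a b h => by simp only [f] at h; split_ifs at h <;> omega
  have hg : Injective g := fun a b h => by simp only [g] at h; split_ifs at h <;> omega
  refine ⟨.and (ren f φ) (ren g ψ), mrg w w', fun v => ?_⟩
  have e1 : mrg v (mrg w w') ∘ f = mrg v w := by
    funext n
    by_cases h : n % 2 = 0
    · simp [f, h, mrg]
    · simp only [comp, f, h, if_false, mrg_odd, mrg_even]; simp [mrg, h]
  have e2 : mrg v (mrg w w') ∘ g = mrg v w' := by
    funext n
    by_cases h : n % 2 = 0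
    · simp [g, h, mrg]
    · simp only [comp, g, h, if_false, mrg_odd]; simp [mrg, h]
  simp only [Sat, sat_ren hf, sat_ren hg, e1, e2, h1, h2]

instance all (Q : (ℕ → M) → M → Prop) [h : Df E (fun v => Q (fun n => v (n + 1)) (v 0))] :
    Df E (fun v => ∀ a, Q v a) := by
  obtain ⟨φ, w, h⟩ := h.ex
  let f : ℕ → ℕ := fun n => if n = 0 then 1 else if n % 2 = 0 then n - 2 else n + 2
  have hf : Injective f := fun a b h => by simp only [f] at h; split_ifs at h <;> omega
  refine ⟨.all 1 (ren f φ), fun n => w (n - 1), fun v => forall_congr' fun a => ?_⟩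
  have e : update (mrg v fun n => w (n - 1)) 1 a ∘ f = mrg (fun n => Nat.casesOn n a v) w := by
    funext n
    rcases Nat.even_or_odd' n with ⟨k, rfl | rfl⟩
    · cases k with
      | zero => simp [f, mrg]
      | succ k =>
        have : f (2 * (k + 1)) = 2 * k := by
          simp only [f]; rw [if_neg (by omega), if_pos (by omega)]; omega
        rw [comp, this, update_of_ne (by omega), mrg_even, mrg_even]
    · have : f (2 * k + 1) = 2 * (k + 1) + 1 := by
        simp only [f]; rw [if_neg (by omega), if_neg (by omega)]; omega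
      rw [comp, this, update_of_ne (by omega), mrg_odd, mrg_odd]; rfl
  rw [sat_ren hf, e, ← h]
  rfl

instance or (P Q : (ℕ → M) → Prop) [Df E P] [Df E Q] : Df E (fun v => P v ∨ Q v) :=
  Df.congr (P := fun v => ¬ (¬ P v ∧ ¬ Q v)) fun _ => by tauto

instance imp (P Q : (ℕ → M) → Prop) [Df E P] [Df E Q] : Df E (fun v => P v → Q v) :=
  Df.congr (P := fun v => ¬ (P v ∧ ¬ Q v)) fun _ => by tauto

instance iff (P Q : (ℕ → M) → Prop) [Df E P] [Df E Q] : Df E (fun v => P v ↔ Q v) :=
  Df.congr (P := fun v => (P v → Q v) ∧ (Q v → P v)) fun _ => iff_iff_implies_and_implies.symm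

instance exists_ (Q : (ℕ → M) → M → Prop) [h : Df E (fun v => Q (fun n => v (n + 1)) (v 0))] :
    Df E (fun v => ∃ a, Q v a) :=
  Df.congr (P := fun v => ¬ ∀ a, ¬ Q v a) fun _ => by simp

instance existsUnique (Q : (ℕ → M) → M → Prop) [Nonempty M]
    [Df E (fun v => Q (fun n => v (n + 1)) (v 0))]
    [Df E (fun v => Q (fun n => v (n + 1 + 1)) (v 0))] : Df E (fun v => ∃! a, Q v a) :=
  Df.congr (P := fun v => ∃ a, Q v a ∧ ∀ b, Q v b → b = a) fun _ => Iff.rfl

variable [Nonempty M]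

instance pr (s t r : (ℕ → M) → M) [Tm s] [Tm t] [Tm r] :
    Df E (fun v => Pr E (s v) (t v) (r v)) := by unfold Pr; infer_instance

instance ap (s t r : (ℕ → M) → M) [Tm s] [Tm t] [Tm r] :
    Df E (fun v => Ap E (s v) (t v) (r v)) := by unfold Ap; infer_instance

instance ap2 (s t r q : (ℕ → M) → M) [Tm s] [Tm t] [Tm r] [Tm q] :
    Df E (fun v => Ap2 E (s v) (t v) (r v) (q v)) := by unfold Ap2; infer_instance

instance sub (s t : (ℕ → M) → M) [Tm s] [Tm t] :
    Df E (fun v => Sub E (s v) (t v)) := by unfold Sub; infer_instance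

end Df

theorem ZF.nonempty (h : ZF E) : Nonempty M := ⟨h.inf.choose⟩

/-- Separation for definable predicates. -/
theorem ZF.sep' (h : ZF E) (P : M → Prop) [hP : Df E (fun v => P (v 0))] (x : M) :
    ∃ y, ∀ z, E z y ↔ E z x ∧ P z := by
  obtain ⟨φ, w, hw⟩ := hP.ex
  obtain ⟨y, hy⟩ := h.sep φ (mrg w w) x
  refine ⟨y, fun z => (hy z).trans (and_congr_right fun _ => ?_)⟩
  have : update (mrg w w) 0 z = mrg (update w 0 z) w := by
    funext n
    rcases Nat.even_or_odd' n with ⟨k, rfl | rfl⟩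
    · cases k with
      | zero => simp [mrg]
      | succ k => rw [update_of_ne (by omega), mrg_even, mrg_even, update_of_ne (by omega)]
    · rw [update_of_ne (by omega), mrg_odd, mrg_odd]
  rw [this, ← hw]
  simp

end Pool.Agent.Lib.SymForcing
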