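import Pool.Agent.Lib.SymForcing.Basic

/-!
Induction on `ω` and finite sets in a model of ZF.
-/

namespace Pool.Agent.Lib.SymForcing

open Pool.Agent.Lib.Forcing Function

universe u

variable {M : Type u} {E : M → M → Prop}

namespace Df

variable [Nonempty M]

instance emp (s : (ℕ → M) → M) [Tm s] : Df E (fun v => Emp E (s v)) := by
  unfold Emp; infer_instance

instance suc (s t : (ℕ → M) → M) [Tm s] [Tm t] : Df E (fun v => Suc E (s v) (t v)) := by
  unfold Suc; infer_instance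

instance ind (s : (ℕ → M) → M) [Tm s] : Df E (fun v => Ind E (s v)) := by
  unfold Ind; infer_instance

instance om (s : (ℕ → M) → M) [Tm s] : Df E (fun v => Om E (s v)) := by
  unfold Om; infer_instance

set_option synthInstance.maxSize 4000 in
instance bij (s t r : (ℕ → M) → M) [Tm s] [Tm t] [Tm r] :
    Df E (fun v => Bij E (s v) (t v) (r v)) := by unfold Bij Fn; infer_instance

instance isFin (s : (ℕ → M) → M) [Tm s] : Df E (fun v => IsFin E (s v)) := by
  unfold IsFin; infer_instance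

end Df

namespace ZF

variable (h : ZF E)
include h

theorem suc_unique {x y y' : M} (h1 : Suc E x y) (h2 : Suc E x y') : y = y' :=
  h.ext _ _ fun z => (h1 z).trans (h2 z).symm

theorem emp_unique {x y : M} (h1 : Emp E x) (h2 : Emp E y) : x = y :=
  h.ext _ _ fun z => iff_of_false (h1 z) (h2 z)

/-- Induction on `ω` for definable predicates. -/
theorem om_ind {w : M} (hw : Om E w) (P : M → Prop) [Df E (fun v => P (v 0))]
    (h0 : ∀ e, Emp E e → P e) (hs : ∀ x y, E x w → Suc E x y → P x → P y) :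
    ∀ x, E x w → P x := by
  obtain ⟨s, hs'⟩ := h.sep' P w
  refine fun x hx => ((hs' x).1 (hw.2 s ⟨?_, fun y hy => ?_⟩ x hx)).2
  · obtain ⟨e, he, hew⟩ := hw.1.1
    exact ⟨e, he, (hs' e).2 ⟨hew, h0 e he⟩⟩
  · obtain ⟨z, hz, hzw⟩ := hw.1.2 y ((hs' y).1 hy).1
    exact ⟨z, hz, (hs' z).2 ⟨hzw, hs y z ((hs' y).1 hy).1 hz ((hs' y).1 hy).2⟩⟩

theorem suc_mem {w x y : M} (hw : Om E w) (hx : E x w) (hy : Suc E x y) : E y w := by
  obtain ⟨z, hz, hzw⟩ := hw.1.2 x hx
  rwa [h.suc_unique hy hz]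

theorem om_trans {w n : M} (hw : Om E w) (hn : E n w) : Sub E n w := by
  have := h.nonempty
  refine h.om_ind hw (fun n => Sub E n w) (fun e he z hz => (he z hz).elim) ?_ n hn
  intro x y hx hy ih z hz
  rcases (hy z).1 hz with h1 | rfl
  · exact ih z h1
  · exact hx

theorem emp_or_mem {w e n : M} (hw : Om E w) (he : Emp E e) (hn : E n w) : n = e ∨ E e n := by
  have := h.nonempty
  refine h.om_ind hw (fun n => n = e ∨ E e n) (fun e' he' => Or.inl (h.emp_unique he' he)) ?_ n hn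
  intro x y _ hy ih
  exact Or.inr ((hy e).2 (ih.symm.imp_right Eq.symm))

theorem suc_or_mem {w i j n : M} (hw : Om E w) (hj : Suc E i j) (hn : E n w) (hi : E i n) :
    n = j ∨ E j n := by
  have := h.nonempty
  refine h.om_ind hw (fun n => E i n → n = j ∨ E j n) (fun e he h1 => (he _ h1).elim) ?_ n hn hi
  intro x y _ hy ih h1
  rcases (hy i).1 h1 with h2 | rfl
  · exact Or.inr ((hy j).2 ((ih h2).symm.imp_right Eq.symm))
  · exact Or.inl (h.suc_unique hy hj)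

theorem isFin_emp {e : M} (he : Emp E e) : IsFin E e := by
  obtain ⟨w, hw⟩ := h.exists_om
  obtain ⟨e', he', hew⟩ := hw.1.1
  obtain rfl := h.emp_unique he he'
  exact ⟨w, e, e, hw, hew, ⟨fun p hp => (he p hp).elim, fun x hx => (he x hx).elim,
    fun x y ⟨p, _, hp⟩ => (he p hp).elim⟩, fun x x' y ⟨p, _, hp⟩ => (he p hp).elim,
    fun y hy => (he y hy).elim⟩

theorem isFin_insert {s s' a : M} (hs : IsFin E s) (hs' : ∀ z, E z s' ↔ E z s ∨ z = a) :
    IsFin E s' := by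
  by_cases ha : E a s
  · rwa [h.ext s' s fun z => (hs' z).trans ⟨fun h => h.elim id fun e => e ▸ ha, Or.inl⟩]
  have := h.nonempty
  obtain ⟨w, n, f, hw, hn, hf, hinj, hsurj⟩ := hs
  obtain ⟨m, hm, hmw⟩ := hw.1.2 n hn
  obtain ⟨g, hg1, hg⟩ := h.exists_graph m s' (fun x y => Ap E f x y ∨ (x = n ∧ y = a))
  have hg' : ∀ x y, Ap E g x y ↔ Ap E f x y ∨ (x = n ∧ y = a) := fun x y =>
    (hg x y).trans ⟨fun h => h.2.2, fun h' => ⟨(hm x).2 (h'.imp (h.fn_dom hf) And.left),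
      (hs' y).2 (h'.imp (hf.2.2 x y) And.right), h'⟩⟩
  have hnn : ∀ y, ¬ Ap E f n y := fun y hy => h.not_mem_self n (h.fn_dom hf hy)
  refine ⟨w, m, g, hw, hmw, ⟨hg1, fun x hx => ?_, fun x y hxy => ((hg x y).1 hxy).2.1⟩,
    fun x x' y h1 h2 => ?_, fun y hy => ?_⟩
  · rcases (hm x).1 hx with h1 | rfl
    · obtain ⟨y, hy, hu⟩ := hf.2.1 x h1
      refine ⟨y, (hg' _ _).2 (Or.inl hy), fun y' hy' => ?_⟩
      rcases (hg' _ _).1 hy' with h2 | ⟨rfl, -⟩
      · exact hu y' h2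
      · exact (h.not_mem_self _ h1).elim
    · refine ⟨a, (hg' _ _).2 (Or.inr ⟨rfl, rfl⟩), fun y' hy' => ?_⟩
      rcases (hg' _ _).1 hy' with h2 | ⟨-, rfl⟩
      · exact (hnn _ h2).elim
      · rfl
  · rcases (hg' _ _).1 h1 with h1 | ⟨rfl, rfl⟩ <;> rcases (hg' _ _).1 h2 with h2 | ⟨rfl, h2⟩
    · exact hinj _ _ _ h1 h2
    · exact (ha (h2 ▸ hf.2.2 _ _ h1)).elim
    · exact (ha (hf.2.2 _ _ h2)).elim
    · rfl
  · rcases (hs' y).1 hy with h1 | rfl
    · exact (hsurj y h1).imp fun x hx => (hg' _ _).2 (Or.inl hx)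
    · exact ⟨n, (hg' _ _).2 (Or.inr ⟨rfl, rfl⟩)⟩

theorem exists_insert (s a : M) : ∃ s', ∀ z, E z s' ↔ E z s ∨ z = a := by
  obtain ⟨p, hp⟩ := h.pair a a
  obtain ⟨d, hd⟩ := h.pair s p
  obtain ⟨u, hu⟩ := h.union d
  refine ⟨u, fun z => (hu z).trans ⟨?_, ?_⟩⟩
  · rintro ⟨y, hy, hz⟩
    rcases (hd y).1 hy with rfl | rfl
    · exact Or.inl hz
    · exact Or.inr (by simpa using (hp z).1 hz)
  · rintro (hz | rfl)
    · exact ⟨s, (hd s).2 (Or.inl rfl), hz⟩
    · exact ⟨p, (hd p).2 (Or.inr rfl), (hp z).2 (Or.inl rfl)⟩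

/-- A set whose elements all occur in a list is finite. -/
theorem isFin_of_list (L : List M) (s : M) (hs : ∀ z, E z s → z ∈ L) : IsFin E s := by
  have := h.nonempty
  induction L generalizing s with
  | nil => exact h.isFin_emp fun z hz => by simpa using hs z hz
  | cons a L ih =>
    obtain ⟨s', hs'⟩ := h.sep' (fun z => z ≠ a) s
    have h1 : IsFin E s' := ih s' fun z hz =>
      (List.mem_cons.1 (hs z ((hs' z).1 hz).1)).resolve_left ((hs' z).1 hz).2
    by_cases ha : E a s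
    · refine h.isFin_insert (a := a) h1 fun z => ?_
      rw [hs']
      by_cases e : z = a <;> simp [e, ha]
    · rwa [← h.ext s' s fun z => (hs' z).trans
        ⟨And.left, fun hz => ⟨hz, fun e => ha (e ▸ hz)⟩⟩]

/-- A finite family `D ⊆ C` can be enlarged to a finite family covering a given finite set. -/
theorem cover_fin {C D F : M} (hF : IsFin E F) (hC : ∀ x, E x F → ∃ V, E V C ∧ E x V)
    (hD : Sub E D C) (hD' : IsFin E D) :
    ∃ D', Sub E D' C ∧ IsFin E D' ∧ Sub E D D' ∧ ∀ x, E x F → ∃ V, E V D' ∧ E x V := by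
  have := h.nonempty
  obtain ⟨w, n, f, hw, hn, hf, -, hsurj⟩ := hF
  have := h.om_ind hw (fun k => ∃ D', Sub E D' C ∧ IsFin E D' ∧ Sub E D D' ∧
      ∀ i x, E i k → Ap E f i x → ∃ V, E V D' ∧ E x V)
    (fun e he => ⟨D, hD, hD', fun _ hz => hz, fun i x hi => (he i hi).elim⟩) ?_ n hn
  · obtain ⟨D', h1, h2, h3, h4⟩ := this
    refine ⟨D', h1, h2, h3, fun x hx => ?_⟩
    obtain ⟨i, hi⟩ := hsurj x hx
    exact h4 i x (h.fn_dom hf hi) hi
  · rintro k k' - hk ⟨D', h1, h2, h3, h4⟩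
    by_cases hx : ∃ x, Ap E f k x
    · obtain ⟨x, hx⟩ := hx
      obtain ⟨V, hV, hxV⟩ := hC x (hf.2.2 _ _ hx)
      obtain ⟨D'', hD''⟩ := h.exists_insert D' V
      refine ⟨D'', fun z hz => ((hD'' z).1 hz).elim (h1 z) fun e => e ▸ hV,
        h.isFin_insert h2 hD'', fun z hz => (hD'' z).2 (Or.inl (h3 z hz)), fun i y hi hy => ?_⟩
      rcases (hk i).1 hi with h5 | rfl
      · exact (h4 i y h5 hy).imp fun W hW => ⟨(hD'' W).2 (Or.inl hW.1), hW.2⟩
      · exact ⟨V, (hD'' V).2 (Or.inr rfl), h.fn_unique hf hx hy ▸ hxV⟩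
    · refine ⟨D', h1, h2, h3, fun i y hi hy => ?_⟩
      rcases (hk i).1 hi with h5 | rfl
      · exact h4 i y h5 hy
      · exact (hx ⟨y, hy⟩).elim

end ZF

end Pool.Agent.Lib.SymForcing
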