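import Mathlib

/-!
The complete Boolean algebra of regular open subsets of a space; right actions by continuous maps.
-/

namespace Pool.Agent.Lib.SymForcing

open TopologicalSpace Heyting Set

/-- Regular open sets. -/
def RO (α : Type) [TopologicalSpace α] : Type := Regular (Opens α)

namespace RO

variable {α : Type} [TopologicalSpace α]

noncomputable instance : CompleteBooleanAlgebra (RO α) :=
  { (inferInstance : BooleanAlgebra (Regular (Opens α))),
    (Regular.gi (α := Opens α)).liftCompleteLattice with }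

/-- The underlying set. -/
def pt (b : RO α) : Set α := (Regular.val b : Opens α)

theorem le_iff {a b : RO α} : a ≤ b ↔ pt a ⊆ pt b := Iff.rfl

theorem pt_inf (a b : RO α) : pt (a ⊓ b) = pt a ∩ pt b := rfl

theorem pt_bot : pt (⊥ : RO α) = ∅ := rfl

theorem pt_top : pt (⊤ : RO α) = univ := rfl

theorem isOpen_pt (b : RO α) : IsOpen (pt b) := (Regular.val b : Opens α).2

theorem ext {a b : RO α} (h : pt a = pt b) : a = b :=
  le_antisymm (le_iff.2 h.le) (le_iff.2 h.ge)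

theorem ne_bot_iff {b : RO α} : b ≠ ⊥ ↔ (pt b).Nonempty := by
  rw [nonempty_iff_ne_empty, ← pt_bot]
  exact not_congr ⟨fun h => h ▸ rfl, ext⟩

theorem compl_opens {s : Set α} (h1 : IsOpen s) (h2 : IsOpen sᶜ) :
    (⟨s, h1⟩ : Opens α)ᶜ = ⟨sᶜ, h2⟩ := by
  refine IsCompl.compl_eq ⟨disjoint_iff.2 (Opens.ext ?_), codisjoint_iff.2 (Opens.ext ?_)⟩
  · simp
  · simp

/-- A clopen set. -/
def clo (s : Set α) (h1 : IsOpen s) (h2 : IsOpen sᶜ) : RO α :=
  ⟨⟨s, h1⟩, by
    rw [Heyting.IsRegular, compl_opens h1 h2, compl_opens h2 (by rwa [compl_compl])]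
    exact Opens.ext (compl_compl s)⟩

theorem pt_clo (s : Set α) (h1 : IsOpen s) (h2 : IsOpen sᶜ) : pt (clo s h1 h2) = s := rfl

theorem pt_compl_clo (s : Set α) (h1 : IsOpen s) (h2 : IsOpen sᶜ) : pt (clo s h1 h2)ᶜ = sᶜ :=
  congrArg (fun U : Opens α => (U : Set α)) (compl_opens h1 h2)

theorem iSup_eq_top {ι : Sort*} (b : ι → RO α)
    (h : ∀ c : RO α, (pt c).Nonempty → ∃ i ω, ω ∈ pt c ∧ ω ∈ pt (b i)) : ⨆ i, b i = ⊤ := by
  by_contra hne
  obtain ⟨i, ω, h3, h4⟩ := h (⨆ i, b i)ᶜ (ne_bot_iff.1 (by simpa using hne))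
  have : ω ∈ pt ((⨆ i, b i)ᶜ ⊓ ⨆ i, b i) := ⟨h3, le_iff.1 (le_iSup b i) h4⟩
  rw [compl_inf_eq_bot] at this
  exact this

variable {G : Type} [Group G] (a : G → α → α) (hc : ∀ g, Continuous (a g))
  (h1 : ∀ x, a 1 x = x) (hm : ∀ g h x, a (g * h) x = a h (a g x))

/-- Action on open sets. -/
def oact (g : G) : Opens α ≃o Opens α where
  toFun U := ⟨a g ⁻¹' U, U.2.preimage (hc g)⟩
  invFun U := ⟨a g⁻¹ ⁻¹' U, U.2.preimage (hc _)⟩
  left_inv U := by ext ω; simp [← hm, h1]
  right_inv U := by ext ω; simp [← hm, h1]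
  map_rel_iff' := by
    intro U V
    refine ⟨fun h ω hω => ?_, fun h ω hω => h hω⟩
    have := @h (a g⁻¹ ω) (by simpa [← hm, h1] using hω)
    simpa [← hm, h1] using this

/-- Action on regular open sets. -/
def ract (g : G) : RO α ≃o RO α where
  toFun b := ⟨oact a hc h1 hm g b.1, by
    rw [Heyting.IsRegular, ← map_compl, ← map_compl, b.2.eq]⟩
  invFun b := ⟨(oact a hc h1 hm g).symm b.1, by
    rw [Heyting.IsRegular, ← map_compl, ← map_compl, b.2.eq]⟩
  left_inv b := Subtype.ext ((oact a hc h1 hm g).symm_apply_apply _)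
  right_inv b := Subtype.ext ((oact a hc h1 hm g).apply_symm_apply _)
  map_rel_iff' := (oact a hc h1 hm g).le_iff_le

theorem mem_ract {g : G} {b : RO α} {ω : α} : ω ∈ pt (ract a hc h1 hm g b) ↔ a g ω ∈ pt b :=
  Iff.rfl

/-- The action as a homomorphism. -/
def hom : G →* (RO α ≃o RO α) where
  toFun := ract a hc h1 hm
  map_one' := RelIso.ext fun _ => ext (Set.ext fun ω => by rw [mem_ract, h1]; rfl)
  map_mul' _ _ := RelIso.ext fun _ => ext (Set.ext fun ω => by rw [mem_ract, hm]; rfl)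

theorem mem_hom {g : G} {b : RO α} {ω : α} : ω ∈ pt (hom a hc h1 hm g b) ↔ a g ω ∈ pt b :=
  Iff.rfl

end RO

end Pool.Agent.Lib.SymForcing
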