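import Pool.Agent.Lib.Forcing.Model
import Pool.Agent.Lib.SymForcing.Basic

/-!
Symmetric submodels of Boolean-valued models: names, the class `N`, representation of predicates.
-/

namespace Pool.Agent.Lib.SymForcing

open Pool.Agent.Lib.Forcing Function

variable {B : Type} [CompleteBooleanAlgebra B]

/-- Action of an automorphism on names. -/
def nmap (π : B ≃o B) : Nm B → Nm B
  | ⟨ι, A, a⟩ => ⟨ι, fun i => nmap π (A i), fun i => π (a i)⟩

theorem nmap_mk (π : B ≃o B) (ι : Type) (A : ι → Nm B) (a : ι → B) :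
    nmap π ⟨ι, A, a⟩ = ⟨ι, fun i => nmap π (A i), fun i => π (a i)⟩ := by rw [nmap]

theorem nmap_one (x : Nm B) : nmap 1 x = x := by
  induction x with
  | mk ι A a ih => simp only [nmap_mk, ih]; rfl

theorem nmap_mul (π ρ : B ≃o B) (x : Nm B) : nmap (π * ρ) x = nmap π (nmap ρ x) := by
  induction x with
  | mk ι A a ih => simp only [nmap_mk, ih]; rfl

theorem eqv_nmap (π : B ≃o B) (x y : Nm B) : Nm.eqv (nmap π x) (nmap π y) = π (Nm.eqv x y) := by
  induction x generalizing y with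
  | mk ι A a ih =>
    cases y with
    | mk κ C c => simp only [nmap_mk, Nm.eqv, ih, map_inf, map_sup, map_compl, OrderIso.map_iInf,
        OrderIso.map_iSup]

theorem mem_nmap (π : B ≃o B) (x y : Nm B) : Nm.mem (nmap π x) (nmap π y) = π (Nm.mem x y) := by
  cases y with
  | mk κ C c =>
    rw [nmap_mk]
    simp only [Nm.mem, eqv_nmap, map_inf, OrderIso.map_iSup]

/-- Image of an ultrafilter. -/
def umap (π : B ≃o B) (U : Ult B) : Ult B where
  P b := U.P (π.symm b)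
  inf a b := by rw [map_inf, U.inf]
  compl a := by rw [map_compl, U.compl]

theorem umap_P (π : B ≃o B) (U : Ult B) (b : B) : (umap π U).P (π b) ↔ U.P b := by
  simp [umap]

theorem umap_surj (π : B ≃o B) (U : Ult B) : ∃ V, U = umap π V := by
  refine ⟨umap π.symm U, ?_⟩
  cases U
  simp [umap]

/-- Forced equality of names. -/
def Feq (x y : Nm B) : Prop := ∀ U : Ult B, U.cl x = U.cl y

theorem feq_iff {x y : Nm B} : Feq x y ↔ Nm.eqv x y = ⊤ :=
  ⟨fun h => top_le_iff.1 (Ult.le_of fun U _ => U.cl_eq.1 (h U)),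
    fun h U => U.cl_eq.2 (h ▸ U.top)⟩

theorem Feq.nmap {x y : Nm B} (h : Feq x y) (π : B ≃o B) : Feq (nmap π x) (nmap π y) := by
  rw [feq_iff] at h ⊢
  rw [eqv_nmap, h, map_top]

theorem Feq.symm {x y : Nm B} (h : Feq x y) : Feq y x := fun U => (h U).symm

theorem Feq.trans {x y z : Nm B} (h : Feq x y) (h' : Feq y z) : Feq x z :=
  fun U => (h U).trans (h' U)

theorem feq_lst {ι κ : Type} {A : ι → Nm B} {C : κ → Nm B} {a : ι → B} {c : κ → B} (e : ι ≃ κ)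
    (h1 : ∀ i, Feq (A i) (C (e i))) (h2 : ∀ i, a i = c (e i)) :
    Feq ⟨ι, A, a⟩ ⟨κ, C, c⟩ := by
  rw [feq_iff, eq_top_iff]
  refine Nm.le_eqv (fun i => Nm.le_mem (y := ⟨κ, C, c⟩) (e i) ?_ ?_) fun j => ?_
  · simp [h2]
  · simp [feq_iff.1 (h1 i)]
  · obtain ⟨i, rfl⟩ := e.surjective j
    refine Nm.le_mem (y := ⟨ι, A, a⟩) i ?_ ?_
    · simp [h2]
    · simp [feq_iff.1 (h1 i).symm]

variable (B) in
/-- A group acting on `B` with a normal filter base of subgroups. -/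
structure Sys where
  G : Type
  [grp : Group G]
  σ : G →* (B ≃o B)
  F : Set (Subgroup G)
  top : ⊤ ∈ F
  inf : ∀ H K, H ∈ F → K ∈ F → ∃ L ∈ F, L ≤ H ∧ L ≤ K
  conj : ∀ g H, H ∈ F → ∃ K ∈ F, ∀ k ∈ K, g⁻¹ * k * g ∈ H

attribute [instance] Sys.grp

namespace Sys

variable (S : Sys B)

/-- `H` fixes the name `x`. -/
def Supp (H : Subgroup S.G) (x : Nm B) : Prop := ∀ g ∈ H, Feq (nmap (S.σ g) x) x

/-- Symmetric names. -/
def Sy (x : Nm B) : Prop := ∃ H ∈ S.F, S.Supp H x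

/-- Hereditarily symmetric names. -/
def HS : Nm B → Prop
  | ⟨ι, A, a⟩ => S.Sy ⟨ι, A, a⟩ ∧ ∀ i, HS (A i)

variable {S}

theorem Supp.mono {H K : Subgroup S.G} {x : Nm B} (h : S.Supp H x) (hK : K ≤ H) : S.Supp K x :=
  fun g hg => h g (hK hg)

theorem Supp.congr {H : Subgroup S.G} {x y : Nm B} (h : S.Supp H x) (e : Feq x y) : S.Supp H y :=
  fun g hg => ((e.nmap _).symm.trans (h g hg)).trans e

theorem Sy.nmap {x : Nm B} (h : S.Sy x) (g : S.G) : S.Sy (nmap (S.σ g) x) := by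
  obtain ⟨H, hH, h⟩ := h
  obtain ⟨K, hK, hk⟩ := S.conj g H hH
  refine ⟨K, hK, fun k hkK => ?_⟩
  have := (h _ (hk k hkK)).nmap (S.σ g)
  rwa [← nmap_mul, ← map_mul, ← mul_assoc, ← mul_assoc, mul_inv_cancel, one_mul, map_mul,
    nmap_mul] at this

theorem HS.sy {x : Nm B} (h : S.HS x) : S.Sy x := by
  cases x
  exact h.1

theorem HS.fn {x : Nm B} (h : S.HS x) (i : x.ι) : S.HS (x.fn i) := by
  cases x
  exact h.2 i

theorem HS.nmap {x : Nm B} (h : S.HS x) (g : S.G) : S.HS (nmap (S.σ g) x) := by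
  induction x with
  | mk ι A a ih => exact ⟨h.1.nmap g, fun i => ih i (h.2 i)⟩

variable (S)

/-- The Boolean value of membership in the symmetric submodel. -/
def hs (x : Nm B) : B := ⨆ y : {y // S.HS y}, Nm.eqv x y.1

theorem hs_congr (x y : Nm B) : Nm.eqv x y ⊓ S.hs x ≤ S.hs y := by
  rw [hs, inf_iSup_eq]
  refine iSup_le fun z => le_iSup_of_le z ?_
  rw [Nm.eqv_symm x y]
  exact Nm.eqv_trans _ _ _

theorem hs_of_HS {x : Nm B} (h : S.HS x) : S.hs x = ⊤ :=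
  top_le_iff.1 (le_iSup_of_le ⟨x, h⟩ (Nm.eqv_refl x).ge)

theorem hs_nmap_le (g : S.G) (x : Nm B) : S.σ g (S.hs x) ≤ S.hs (nmap (S.σ g) x) := by
  rw [hs, OrderIso.map_iSup]
  exact iSup_le fun y => le_iSup_of_le ⟨_, y.2.nmap g⟩ (eqv_nmap _ _ _).ge

/-- Membership in the symmetric submodel. -/
def InN (U : Ult B) (a : U.M) : Prop := ∃ x, a = U.cl x ∧ U.P (S.hs x)

theorem inN_cl (U : Ult B) (x : Nm B) : S.InN U (U.cl x) ↔ U.P (S.hs x) :=
  ⟨fun ⟨y, e, h⟩ => U.mono (S.hs_congr y x) ((U.inf _ _).2 ⟨U.cl_eq.1 e.symm, h⟩),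
    fun h => ⟨x, rfl, h⟩⟩

instance rep_inN (x : Nm B) : Rep (fun U => S.InN U (U.cl x)) :=
  Rep.congr (P := fun U => U.P (S.hs x)) fun U => (S.inN_cl U x).symm

theorem hs_elim (P : ∀ U : Ult B, U.M → Prop) [∀ x, Rep (fun U => P U (U.cl x))]
    (h : ∀ U y, S.HS y → P U (U.cl y)) (U : Ult B) (a : U.M) (ha : S.InN U a) : P U a := by
  obtain ⟨x, rfl, hx⟩ := ha
  refine sup_elim _ (fun U => P U (U.cl x)) (fun V y hV => ?_) U hx
  rw [V.cl_eq.2 hV]
  exact h V _ y.2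

theorem inN_trans (U : Ult B) (a b : U.M) (hb : S.InN U b) (h : U.E a b) : S.InN U a := by
  refine S.hs_elim (fun U b => ∀ a, U.E a b → S.InN U a) (fun V y hy a ha => ?_) U b hb a h
  refine mem_elim y (fun U a => S.InN U a) (fun W i _ => ?_) V a ha
  rw [inN_cl, S.hs_of_HS (hy.fn i)]
  exact W.top

/-- A name whose elements are all in `N` is equal to a name listing hereditarily symmetric names. -/
theorem exists_listing (x : Nm B) (h : ∀ (U : Ult B) a, U.E a (U.cl x) → S.InN U a) :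
    ∃ (ι : Type) (A : ι → Nm B) (v : ι → B), (∀ i, S.HS (A i)) ∧ Feq x ⟨ι, A, v⟩ := by
  let κ : x.ι → Type := fun i => Set.range fun y : {y // S.HS y} => Nm.eqv (x.fn i) y.1
  have : ∀ i (b : κ i), ∃ y : {y // S.HS y}, Nm.eqv (x.fn i) y.1 = b.1 := fun i b => b.2
  choose y hy using this
  let x' : Nm B := ⟨Σ i, κ i, fun s => (y s.1 s.2).1, fun s => x.val s.1 ⊓ s.2.1⟩
  refine ⟨Σ i, κ i, fun s => (y s.1 s.2).1, fun s => x.val s.1 ⊓ s.2.1, fun s => (y s.1 s.2).2,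
    fun U => U.ext' _ _ fun z => ⟨fun hz => ?_, fun hz => ?_⟩⟩
  · refine mem_elim x (fun U z => U.E z (U.cl x')) (fun V i hi => ?_) U z hz
    have h1 := (S.inN_cl V _).1 (h V _ (V.E_intro x i hi))
    refine sup_elim _ (fun V => V.P (x.val i) → V.E (V.cl (x.fn i)) (V.cl x'))
      (fun W w hw hi => ?_) V h1 hi
    let b : κ i := ⟨_, w, rfl⟩
    have e : W.cl (x.fn i) = W.cl (y i b).1 := W.cl_eq.2 (by rw [hy]; exact hw)
    rw [e]
    exact W.E_intro x' ⟨i, b⟩ ((W.inf _ _).2 ⟨hi, hw⟩)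
  · refine mem_elim x' (fun U z => U.E z (U.cl x)) (fun V s hs => ?_) U z hz
    have h1 := (V.inf _ _).1 hs
    have e : V.cl (x.fn s.1) = V.cl (y s.1 s.2).1 := V.cl_eq.2 (by rw [hy]; exact h1.2)
    exact e ▸ V.E_intro x s.1 h1.1

theorem hs_top (x : Nm B) (h : ∀ (U : Ult B) a, U.E a (U.cl x) → S.InN U a) (hx : S.Sy x) :
    S.hs x = ⊤ := by
  obtain ⟨ι, A, v, h1, h2⟩ := S.exists_listing x h
  obtain ⟨H, hH, hx⟩ := hx
  exact top_le_iff.1 (le_iSup_of_le ⟨⟨ι, A, v⟩, ⟨H, hH, hx.congr h2⟩, h1⟩ (feq_iff.1 h2).ge)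

/-- The symmetric submodel. -/
def N (U : Ult B) : Type 1 := {a : U.M // S.InN U a}

/-- Membership in the symmetric submodel. -/
def EN (U : Ult B) (a b : S.N U) : Prop := U.E a.1 b.1

/-- Names forced into the symmetric submodel. -/
def GN : Type 1 := {x : Nm B // S.hs x = ⊤}

variable {S}

/-- The element named by a good name. -/
def cg (U : Ult B) (x : S.GN) : S.N U := ⟨U.cl x.1, (S.inN_cl U _).2 (by rw [x.2]; exact U.top)⟩

theorem HS_emp : S.HS (empN : Nm B) :=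
  ⟨⟨⊤, S.top, fun g _ => feq_lst (Equiv.refl _) (fun i => i.elim) fun i => i.elim⟩, fun i => i.elim⟩

theorem exists_good (x : Nm B) : ∃ y : S.GN, ∀ U : Ult B, S.InN U (U.cl x) → U.cl x = U.cl y.1 := by
  let X : Bool → Nm B := fun b => cond b x empN
  let a : Bool → B := fun b => cond b (S.hs x) (S.hs x)ᶜ
  have ha : ∀ k l, k ≠ l → a k ⊓ a l = ⊥ := by
    rintro (_ | _) (_ | _) h <;> simp [a] at h ⊢
  have h1 : S.hs x ≤ Nm.eqv x (Nm.mix X a) := Nm.le_eqv_mix X a ha true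
  have h2 : (S.hs x)ᶜ ≤ Nm.eqv empN (Nm.mix X a) := Nm.le_eqv_mix X a ha false
  refine ⟨⟨Nm.mix X a, ?_⟩, fun U hU => U.cl_eq.2 (U.mono h1 ((S.inN_cl U x).1 hU))⟩
  rw [eq_top_iff, ← sup_compl_eq_top (x := S.hs x)]
  refine sup_le ((le_inf h1 le_rfl).trans (S.hs_congr _ _))
    ((le_inf h2 ?_).trans (S.hs_congr _ _))
  rw [S.hs_of_HS HS_emp]
  exact le_top

theorem cg_surj (U : Ult B) (a : S.N U) : ∃ x, a = cg U x := by
  obtain ⟨a, ha⟩ := a
  obtain ⟨x, rfl⟩ := U.cl_surj a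
  obtain ⟨y, hy⟩ := exists_good (S := S) x
  exact ⟨y, Subtype.ext (hy U ha)⟩

theorem cg_eq {U : Ult B} {x y : S.GN} : cg U x = cg U y ↔ U.cl x.1 = U.cl y.1 := Subtype.ext_iff

instance rep_mem (x y : S.GN) : Rep (fun U => S.EN U (cg U x) (cg U y)) := Rep.mem x.1 y.1

instance rep_eq (x y : S.GN) : Rep (fun U => cg U x = cg U y) :=
  Rep.congr (P := fun U => U.cl x.1 = U.cl y.1) fun _ => cg_eq.symm

instance rep_ne (x y : S.GN) : Rep (fun U => cg U x ≠ cg U y) :=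
  Rep.not (fun U => cg U x = cg U y)

theorem exists_wit (Q : ∀ U : Ult B, S.N U → Prop) [∀ x, Rep (fun U => Q U (cg U x))] :
    ∃ x0 : S.GN, ∀ U : Ult B, (∃ a, Q U a) → Q U (cg U x0) := by
  let Q' : ∀ U : Ult B, U.M → Prop := fun U a => ∃ h : S.InN U a, Q U ⟨a, h⟩
  have key : ∀ x : Nm B, ∃ y : S.GN, ∀ U, Q' U (U.cl x) ↔ S.InN U (U.cl x) ∧ Q U (cg U y) := by
    intro x
    obtain ⟨y, hy⟩ := exists_good (S := S) x
    refine ⟨y, fun U => ⟨fun ⟨h1, h2⟩ => ⟨h1, ?_⟩, fun ⟨h1, h2⟩ => ⟨h1, ?_⟩⟩⟩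
    · exact (Subtype.ext (hy U h1) : (⟨_, h1⟩ : S.N U) = cg U y) ▸ h2
    · exact (Subtype.ext (hy U h1) : (⟨_, h1⟩ : S.N U) = cg U y) ▸ h2
  have : ∀ x, Rep (fun U => Q' U (U.cl x)) := fun x => by
    obtain ⟨y, hy⟩ := key x
    exact Rep.congr fun U => (hy U).symm
  obtain ⟨x0, h⟩ := exists_witness Q'
  obtain ⟨y, hy⟩ := key x0
  exact ⟨y, fun U ⟨a, ha⟩ => ((hy U).1 (h U ⟨a.1, a.2, ha⟩)).2⟩

instance rep_exists (Q : ∀ U : Ult B, S.N U → Prop) [∀ x, Rep (fun U => Q U (cg U x))] :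
    Rep (fun U => ∃ a, Q U a) := by
  obtain ⟨x0, h⟩ := exists_wit Q
  exact Rep.congr (P := fun U => Q U (cg U x0)) fun U => ⟨fun h => ⟨_, h⟩, h U⟩

instance rep_all (Q : ∀ U : Ult B, S.N U → Prop) [∀ x, Rep (fun U => Q U (cg U x))] :
    Rep (fun U => ∀ a, Q U a) :=
  Rep.congr (P := fun U => ¬ ∃ a, ¬ Q U a) fun U => by simp

instance rep_existsUnique (Q : ∀ U : Ult B, S.N U → Prop) [∀ x, Rep (fun U => Q U (cg U x))] :
    Rep (fun U => ∃! a, Q U a) :=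
  Rep.congr (P := fun U => ∃ a, Q U a ∧ ∀ b, Q U b → b = a) fun _ => Iff.rfl

/-- To prove a represented property of all elements of `N`, treat those with a symmetric name. -/
theorem sy_elim (P : ∀ U : Ult B, S.N U → Prop) [∀ x, Rep (fun U => P U (cg U x))]
    (h : ∀ U (x : S.GN), S.Sy x.1 → P U (cg U x)) (U : Ult B) (a : S.N U) : P U a := by
  obtain ⟨x, rfl⟩ := cg_surj U a
  refine sup_elim _ (fun U => P U (cg U x)) (fun V (y : {y // S.HS y}) hV => ?_) U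
    (show U.P (S.hs x.1) by rw [x.2]; exact U.top)
  have : cg V x = cg V ⟨y.1, S.hs_of_HS y.2⟩ := cg_eq.2 (V.cl_eq.2 hV)
  rw [this]
  exact h V _ y.2.sy

/-- Membership of an element of `N` in an arbitrary name. -/
def Mem (U : Ult B) (a : S.N U) (y : Nm B) : Prop := U.E a.1 (U.cl y)

instance rep_Mem (x : S.GN) (y : Nm B) : Rep (fun U => Mem U (cg U x) y) := Rep.mem x.1 y

/-- The name listing a family of good names. -/
def lst {ι : Type} (A : ι → S.GN) (v : ι → B) : Nm B := ⟨ι, fun i => (A i).1, v⟩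

theorem lst_intro {ι : Type} (A : ι → S.GN) (v : ι → B) (U : Ult B) (i : ι) (h : U.P (v i)) :
    Mem U (cg U (A i)) (lst A v) := U.E_intro (lst A v) i h

theorem lst_elim {ι : Type} (A : ι → S.GN) (v : ι → B) (P : ∀ U : Ult B, S.N U → Prop)
    [∀ x, Rep (fun U => P U (cg U x))] (h : ∀ U i, U.P (v i) → P U (cg U (A i))) (U : Ult B)
    (a : S.N U) (ha : Mem U a (lst A v)) : P U a := by
  obtain ⟨x, rfl⟩ := cg_surj U a
  refine sup_elim (fun j => v j ⊓ Nm.eqv x.1 (A j).1) (fun U => P U (cg U x)) ?_ U ha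
  intro V i hV
  rw [V.inf, ← V.cl_eq, ← cg_eq] at hV
  rw [hV.2]
  exact h V i hV.1

/-- A symmetric listing of good names is good. -/
def lstG {ι : Type} (A : ι → S.GN) (v : ι → B) (h : S.Sy (lst A v)) : S.GN :=
  ⟨lst A v, S.hs_top _ (fun U a ha => mem_elim (lst A v) (fun U a => S.InN U a)
    (fun V i _ => (cg V (A i)).2) U a ha) h⟩

/-- The action on good names. -/
def act (g : S.G) (x : S.GN) : S.GN :=
  ⟨nmap (S.σ g) x.1, top_le_iff.1 (le_trans (by rw [x.2, map_top]) (S.hs_nmap_le g x.1))⟩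

theorem act_mul (g h : S.G) (x : S.GN) : act (g * h) x = act g (act h x) :=
  Subtype.ext (by simp only [act, map_mul, nmap_mul])

theorem act_one (x : S.GN) : act 1 x = x := Subtype.ext (by simp only [act, map_one, nmap_one])

theorem nmap_lst {ι : Type} (A : ι → S.GN) (v : ι → B) (g : S.G) :
    nmap (S.σ g) (lst A v) = lst (fun i => act g (A i)) (fun i => S.σ g (v i)) := nmap_mk _ _ _ _

theorem cg_act_eq (g : S.G) (U : Ult B) (x y : S.GN) :
    cg (umap (S.σ g) U) (act g x) = cg (umap (S.σ g) U) (act g y) ↔ cg U x = cg U y := by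
  simp only [cg_eq, Ult.cl_eq, act, eqv_nmap, umap_P]

theorem exists_iso (g : S.G) (U : Ult B) : ∃ e : Iso (S.EN U) (S.EN (umap (S.σ g) U)),
    ∀ x, e.f (cg U x) = cg (umap (S.σ g) U) (act g x) := by
  choose nm hnm using cg_surj (S := S) U
  let f : S.N U → S.N (umap (S.σ g) U) := fun a => cg _ (act g (nm a))
  have hf : ∀ x, f (cg U x) = cg _ (act g x) := fun x => (cg_act_eq g U _ _).2 (hnm _).symm
  have hb : Bijective f := by
    constructor
    · intro a b h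
      rw [hnm a, hnm b]
      exact (cg_act_eq g U _ _).1 h
    · intro b
      obtain ⟨y, rfl⟩ := cg_surj _ b
      exact ⟨cg U (act g⁻¹ y), by rw [hf, ← act_mul, mul_inv_cancel, act_one]⟩
  refine ⟨⟨Equiv.ofBijective f hb, fun a b => ?_⟩, hf⟩
  obtain ⟨x, rfl⟩ := cg_surj U a
  obtain ⟨y, rfl⟩ := cg_surj U b
  simp only [Equiv.ofBijective_apply, hf]
  simp only [EN, cg, act, Ult.E_cl, mem_nmap, umap_P]

/-- The isomorphism induced by a group element. -/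
noncomputable def iso (g : S.G) (U : Ult B) : Iso (S.EN U) (S.EN (umap (S.σ g) U)) :=
  (exists_iso g U).choose

theorem iso_cg (g : S.G) (U : Ult B) (x : S.GN) :
    (iso g U).f (cg U x) = cg (umap (S.σ g) U) (act g x) := (exists_iso g U).choose_spec x

theorem Supp.cg_act {H : Subgroup S.G} {x : S.GN} (h : S.Supp H x.1) {g : S.G} (hg : g ∈ H)
    (U : Ult B) : cg U (act g x) = cg U x := cg_eq.2 (h g hg U)

theorem Supp.fix {H : Subgroup S.G} {x : S.GN} (h : S.Supp H x.1) {g : S.G} (hg : g ∈ H)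
    (U : Ult B) : cg (umap (S.σ g) U) x = (iso g U).f (cg U x) := by
  rw [iso_cg, h.cg_act hg]

theorem Mem_iso (g : S.G) (U : Ult B) (a : S.N U) (y : Nm B) :
    Mem _ ((iso g U).f a) (nmap (S.σ g) y) ↔ Mem U a y := by
  obtain ⟨x, rfl⟩ := cg_surj U a
  rw [iso_cg]
  simp only [Mem, cg, act, Ult.E_cl, mem_nmap, umap_P]

/-- Invariance of a class under a subgroup. -/
def Inv (H : Subgroup S.G) (Q : ∀ U : Ult B, S.N U → Prop) : Prop :=
  ∀ g ∈ H, ∀ U a, Q (umap (S.σ g) U) ((iso g U).f a) ↔ Q U a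

theorem ext (U : Ult B) (a b : S.N U) (h : ∀ z, S.EN U z a ↔ S.EN U z b) : a = b :=
  Subtype.ext (U.ext' _ _ fun z =>
    ⟨fun hz => (h ⟨z, S.inN_trans U z _ a.2 hz⟩).1 hz,
      fun hz => (h ⟨z, S.inN_trans U z _ b.2 hz⟩).2 hz⟩)

/-- An invariant class contained in a set of the full model is a set of the symmetric model. -/
theorem exists_set {H : Subgroup S.G} (hH : H ∈ S.F) (Q : ∀ U : Ult B, S.N U → Prop)
    [∀ x, Rep (fun U => Q U (cg U x))] (hQ : Inv H Q) (y0 : Nm B)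
    (h0 : ∀ U a, Q U a → Mem U a y0) :
    ∃ y : S.GN, S.Supp H y.1 ∧ ∀ U a, S.EN U a (cg U y) ↔ Q U a := by
  obtain ⟨v0, hv0⟩ := exists_sep y0 (fun U a => S.InN U a)
  obtain ⟨ι, A, v, hA, e⟩ := S.exists_listing ⟨y0.ι, y0.fn, v0⟩ fun U a ha => ((hv0 U a).1 ha).2
  let A' : ι → S.GN := fun i => ⟨A i, S.hs_of_HS (hA i)⟩
  let w : ι → B := fun i => bv (fun U => Q U (cg U (A' i)))
  have hw : ∀ U a, Mem U a (lst A' w) ↔ Q U a := fun U a =>
    ⟨lst_elim A' w Q (fun V i hi => (bv_iff _ V).1 hi) U a, fun h =>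
      lst_elim A' v (fun U a => Q U a → Mem U a (lst A' w))
        (fun V i _ hq => lst_intro A' w V i ((bv_iff _ V).2 hq)) U a
        (show U.E a.1 (U.cl ⟨ι, A, v⟩) from e U ▸ (hv0 U a.1).2 ⟨h0 U a h, a.2⟩) h⟩
  have hin : ∀ (A : ι → S.GN) (w : ι → B) (U : Ult B) a, U.E a (U.cl (lst A w)) → S.InN U a :=
    fun A w U a ha => mem_elim (lst A w) (fun U a => S.InN U a) (fun V i _ => (cg V (A i)).2) U a ha
  have hs : S.Supp H (lst A' w) := by
    intro g hg U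
    obtain ⟨V, rfl⟩ := umap_surj (S.σ g) U
    have key : ∀ b, Mem (S := S) (umap (S.σ g) V) b (nmap (S.σ g) (lst A' w)) ↔
        Mem _ b (lst A' w) := by
      intro b
      obtain ⟨a, rfl⟩ := (iso g V).f.surjective b
      rw [Mem_iso, hw, hw, hQ g hg]
    refine Ult.ext' _ _ _ fun z => ⟨fun hz => (key ⟨z, ?_⟩).1 hz, fun hz =>
      (key ⟨z, hin _ _ _ _ hz⟩).2 hz⟩
    rw [nmap_lst] at hz
    exact hin _ _ _ _ hz
  exact ⟨lstG A' w ⟨H, hH, hs⟩, hs, hw⟩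

/-- The empty set as a good name. -/
def empG : S.GN := ⟨empN, S.hs_of_HS HS_emp⟩

theorem emp_empG (U : Ult B) : Emp (S.EN U) (cg U empG) := fun z => U.emp_empN z.1

instance rep_emp (x : S.GN) : Rep (fun U => Emp (S.EN U) (cg U x)) := by
  unfold Emp; infer_instance

/-- An element uniquely defined by an invariant property has a name with the same support. -/
theorem exists_elem (H : Subgroup S.G) (Q : ∀ U : Ult B, S.N U → Prop)
    [∀ x, Rep (fun U => Q U (cg U x))] (hQ : Inv H Q) :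
    ∃ y : S.GN, S.Supp H y.1 ∧ ∀ U a, Q U a → (∀ b, Q U b → b = a) → a = cg U y := by
  let Q' : ∀ U : Ult B, S.N U → Prop := fun U a =>
    (Q U a ∧ ∀ b, Q U b → b = a) ∨ ((¬ ∃ a, Q U a ∧ ∀ b, Q U b → b = a) ∧ Emp (S.EN U) a)
  obtain ⟨y, hy⟩ := exists_wit Q'
  have hex : ∀ U, ∃ a, Q' U a := fun U => by
    by_cases h : ∃ a, Q U a ∧ ∀ b, Q U b → b = a
    · exact h.imp fun a ha => Or.inl ha
    · exact ⟨_, Or.inr ⟨h, emp_empG U⟩⟩
  have hun : ∀ U a b, Q' U a → Q' U b → a = b := by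
    rintro U a b (h1 | h1) (h2 | h2)
    · exact h2.2 a h1.1
    · exact (h2.1 ⟨a, h1⟩).elim
    · exact (h1.1 ⟨b, h2⟩).elim
    · exact ext U a b fun z => iff_of_false (h1.2 z) (h2.2 z)
  refine ⟨y, fun g hg U => ?_, fun U a h1 h2 => hun U _ _ (Or.inl ⟨h1, h2⟩) (hy U (hex U))⟩
  obtain ⟨V, rfl⟩ := umap_surj (S.σ g) U
  refine cg_eq.1 (hun _ (cg _ (act g y)) _ ?_ (hy _ (hex _)))
  rw [← iso_cg]
  have := hy V (hex V)
  simpa only [Q', (iso g V).all, (iso g V).ex, hQ g hg V, (iso g V).eq, (iso g V).emp] using this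

end Sys

end Pool.Agent.Lib.SymForcing
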