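import Pool.Agent.Lib.SymForcing.Sym

/-!
The symmetric submodel satisfies ZF. Numerals, `ω`, ordered pairs and graphs as good names.
-/

namespace Pool.Agent.Lib.SymForcing

open Pool.Agent.Lib.Forcing Function

variable {B : Type} [CompleteBooleanAlgebra B] {S : Sys B}

namespace Sys

theorem rep_satN (φ : Fml) (v : ℕ → S.GN) :
    Rep (fun U : Ult B => Sat (S.EN U) φ (fun n => cg U (v n))) := by
  induction φ generalizing v with
  | mem i j => exact rep_mem _ _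
  | eq i j => exact rep_eq _ _
  | neg φ ih => exact @Rep.not _ _ _ (ih v)
  | and φ ψ ih1 ih2 => exact @Rep.and _ _ _ _ (ih1 v) (ih2 v)
  | all i φ ih =>
    refine @rep_all _ _ _ (fun U a => Sat (S.EN U) φ (update (fun n => cg U (v n)) i a))
      fun x => ?_
    refine @Rep.congr _ _ _ _ (ih (update v i x)) fun U => ?_
    rw [← comp_def (cg U), comp_update]
    rfl

theorem update_cg (U : Ult B) (v : ℕ → S.GN) (i : ℕ) (x : S.GN) :
    update (fun n => cg U (v n)) i (cg U x) = fun n => cg U (update v i x n) := by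
  rw [← comp_def (cg U), ← comp_update]
  rfl

instance rep_sat1 (φ : Fml) (v : ℕ → S.GN) (x : S.GN) :
    Rep (fun U : Ult B => Sat (S.EN U) φ (update (fun n => cg U (v n)) 0 (cg U x))) := by
  simp only [update_cg]
  exact rep_satN φ _

instance rep_sat2 (φ : Fml) (v : ℕ → S.GN) (x y : S.GN) :
    Rep (fun U : Ult B => Sat (S.EN U) φ
      (update (update (fun n => cg U (v n)) 0 (cg U x)) 1 (cg U y))) := by
  simp only [update_cg]
  exact rep_satN φ _

theorem params_elim (k : ℕ) (P : ∀ U : Ult B, (ℕ → S.N U) → Prop)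
    [hP : ∀ v : ℕ → S.GN, Rep (fun U => P U fun n => cg U (v n))]
    (h : ∀ (v : ℕ → S.GN), (∃ H ∈ S.F, ∀ i < k, S.Supp H (v i).1) → ∀ U, P U fun n => cg U (v n))
    (U : Ult B) (v : ℕ → S.N U) : P U v := by
  have key : ∀ (j : ℕ) (v : ℕ → S.GN), (∃ H ∈ S.F, ∀ i < k, j ≤ i → S.Supp H (v i).1) →
      ∀ U, P U fun n => cg U (v n) := by
    intro j
    induction j with
    | zero => exact fun v ⟨H, hH, hv⟩ => h v ⟨H, hH, fun i hi => hv i hi (Nat.zero_le _)⟩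
    | succ j ih =>
      rintro v ⟨H, hH, hv⟩ U
      have : ∀ x, Rep (fun U => P U (update (fun n => cg U (v n)) j (cg U x))) := fun x => by
        simp only [update_cg]
        exact hP _
      have := sy_elim (fun U a => P U (update (fun n => cg U (v n)) j a)) (fun V x ⟨K, hK, hx⟩ => by
        obtain ⟨L, hL, h1, h2⟩ := S.inf H K hH hK
        rw [update_cg]
        refine ih _ ⟨L, hL, fun i hi hj => ?_⟩ V
        by_cases e : i = j
        · subst e
          simpa using hx.mono h2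
        · rw [update_of_ne e]
          exact (hv i hi (by omega)).mono h1) U (cg U (v j))
      rwa [update_eq_self_iff.2 rfl] at this
  choose w hw using fun n => cg_surj U (v n)
  rw [show v = fun n => cg U (w n) from funext hw]
  exact key k w ⟨⊤, S.top, fun i hi hj => by omega⟩ U

theorem pairN (U : Ult B) (x y : S.N U) : ∃ p, ∀ z, S.EN U z p ↔ z = x ∨ z = y := by
  refine sy_elim (fun U x => ∀ y, ∃ p, ∀ z, S.EN U z p ↔ z = x ∨ z = y)
    (fun V x ⟨H, hH, hx⟩ y => ?_) U x y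
  refine sy_elim (fun U y => ∃ p, ∀ z, S.EN U z p ↔ z = cg U x ∨ z = y)
    (fun W y ⟨K, hK, hy⟩ => ?_) V y
  obtain ⟨L, hL, h1, h2⟩ := S.inf H K hH hK
  obtain ⟨p, -, hp⟩ := exists_set hL (fun U z => z = cg U x ∨ z = cg U y)
    (fun g hg U a => by simp only [hx.fix (h1 hg) U, hy.fix (h2 hg) U, Iso.eq]) (upN x.1 y.1)
    (fun U a h => (U.E_upN _ _ _).2 (h.imp (congrArg Subtype.val) (congrArg Subtype.val)))
  exact ⟨_, hp W⟩

theorem unionN (U : Ult B) (x : S.N U) : ∃ u, ∀ z, S.EN U z u ↔ ∃ y, S.EN U y x ∧ S.EN U z y := by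
  refine sy_elim (fun U x => ∃ u, ∀ z, S.EN U z u ↔ ∃ y, S.EN U y x ∧ S.EN U z y)
    (fun V x ⟨H, hH, hx⟩ => ?_) U x
  obtain ⟨u, hu⟩ := exists_union x.1
  obtain ⟨p, -, hp⟩ := exists_set hH (fun U z => ∃ y, S.EN U y (cg U x) ∧ S.EN U z y)
    (fun g hg U a => by simp only [hx.fix hg U, (iso g U).ex, Iso.mem]) u
    (fun U a ⟨y, h1, h2⟩ => (hu U _).2 ⟨y.1, h1, h2⟩)
  exact ⟨_, hp V⟩

theorem powerN (U : Ult B) (x : S.N U) :
    ∃ p, ∀ z, S.EN U z p ↔ ∀ t, S.EN U t z → S.EN U t x := by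
  refine sy_elim (fun U x => ∃ p, ∀ z, S.EN U z p ↔ ∀ t, S.EN U t z → S.EN U t x)
    (fun V x ⟨H, hH, hx⟩ => ?_) U x
  obtain ⟨u, hu⟩ := exists_power x.1
  obtain ⟨p, -, hp⟩ := exists_set hH (fun U z => ∀ t, S.EN U t z → S.EN U t (cg U x))
    (fun g hg U a => by simp only [hx.fix hg U, (iso g U).all, Iso.mem]) u
    (fun U a h => (hu U _).2 fun t ht => h ⟨t, S.inN_trans U t _ a.2 ht⟩ ht)
  exact ⟨_, hp V⟩

theorem foundN (U : Ult B) (x : S.N U) (hx : ∃ y, S.EN U y x) :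
    ∃ y, S.EN U y x ∧ ∀ z, S.EN U z y → ¬ S.EN U z x := by
  obtain ⟨y, hy⟩ := hx
  obtain ⟨z, hz, h⟩ := U.found x.1 ⟨y.1, hy⟩
  exact ⟨⟨z, S.inN_trans U z _ x.2 hz⟩, hz, fun t => h t.1⟩

theorem sat_iso1 {H : Subgroup S.G} {φ : Fml} {v : ℕ → S.GN} (hv : ∀ i < bd φ, S.Supp H (v i).1)
    {g : S.G} (hg : g ∈ H) (U : Ult B) (a : S.N U) :
    Sat (S.EN _) φ (update (fun n => cg (umap (S.σ g) U) (v n)) 0 ((iso g U).f a)) ↔
      Sat (S.EN U) φ (update (fun n => cg U (v n)) 0 a) := by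
  rw [← (iso g U).sat]
  refine sat_congr φ fun i hi => ?_
  by_cases e : i = 0
  · subst e; simp
  · simp [e, (hv i hi).fix hg U]

theorem sat_iso2 {H : Subgroup S.G} {φ : Fml} {v : ℕ → S.GN} (hv : ∀ i < bd φ, S.Supp H (v i).1)
    {g : S.G} (hg : g ∈ H) (U : Ult B) (a b : S.N U) :
    Sat (S.EN _) φ (update (update (fun n => cg (umap (S.σ g) U) (v n)) 0 ((iso g U).f a)) 1
      ((iso g U).f b)) ↔ Sat (S.EN U) φ (update (update (fun n => cg U (v n)) 0 a) 1 b) := by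
  rw [← (iso g U).sat]
  refine sat_congr φ fun i hi => ?_
  by_cases e : i = 1
  · subst e; simp
  · by_cases e' : i = 0
    · subst e'; simp
    · simp [e, e', (hv i hi).fix hg U]

theorem sepN (U : Ult B) (φ : Fml) (v : ℕ → S.N U) (x : S.N U) :
    ∃ y, ∀ z, S.EN U z y ↔ S.EN U z x ∧ Sat (S.EN U) φ (update v 0 z) := by
  refine params_elim (bd φ) (fun U v => ∀ x, ∃ y, ∀ z, S.EN U z y ↔ S.EN U z x ∧
    Sat (S.EN U) φ (update v 0 z)) (fun v ⟨H, hH, hv⟩ V x => ?_) U v x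
  refine sy_elim (fun U x => ∃ y, ∀ z, S.EN U z y ↔ S.EN U z x ∧
    Sat (S.EN U) φ (update (fun n => cg U (v n)) 0 z)) (fun W x ⟨K, hK, hx⟩ => ?_) V x
  obtain ⟨L, hL, h1, h2⟩ := S.inf H K hH hK
  obtain ⟨p, -, hp⟩ := exists_set hL (fun U z => S.EN U z (cg U x) ∧
      Sat (S.EN U) φ (update (fun n => cg U (v n)) 0 z))
    (fun g hg U a => by simp only [sat_iso1 hv (h1 hg), hx.fix (h2 hg) U, Iso.mem]) x.1
    (fun U a h => h.1)
  exact ⟨_, hp W⟩

theorem exists_collectN (x : S.GN) (Q : ∀ U : Ult B, S.N U → S.N U → Prop)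
    [∀ z z', Rep (fun U => Q U (cg U z) (cg U z'))] :
    ∃ y : Nm B, ∀ (U : Ult B) a, S.EN U a (cg U x) → (∃ b, Q U a b) → ∃ b, Mem U b y ∧ Q U a b := by
  obtain ⟨ι, A, v, hA, e⟩ := S.exists_listing x.1 fun U a ha => S.inN_trans U a _ (cg U x).2 ha
  let A' : ι → S.GN := fun i => ⟨A i, S.hs_of_HS (hA i)⟩
  choose w hw using fun i => exists_wit (fun U b => Q U (cg U (A' i)) b)
  refine ⟨lst w fun _ => ⊤, fun U a ha => ?_⟩
  refine lst_elim A' v (fun U a => (∃ b, Q U a b) → ∃ b, Mem U b (lst w fun _ => ⊤) ∧ Q U a b)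
    (fun V i _ h => ⟨_, lst_intro w _ V i V.top, hw i V h⟩) U a ?_
  exact (show U.E a.1 (U.cl ⟨ι, A, v⟩) from e U ▸ ha)

theorem replN (U : Ult B) (φ : Fml) (v : ℕ → S.N U) (x : S.N U)
    (h : ∀ a, S.EN U a x → ∃! b, Sat (S.EN U) φ (update (update v 0 a) 1 b)) :
    ∃ y, ∀ b, S.EN U b y ↔ ∃ a, S.EN U a x ∧ Sat (S.EN U) φ (update (update v 0 a) 1 b) := by
  refine params_elim (bd φ) (fun U v => ∀ x,
    (∀ a, S.EN U a x → ∃! b, Sat (S.EN U) φ (update (update v 0 a) 1 b)) →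
    ∃ y, ∀ b, S.EN U b y ↔ ∃ a, S.EN U a x ∧ Sat (S.EN U) φ (update (update v 0 a) 1 b))
    (fun v ⟨H, hH, hv⟩ V x => ?_) U v x h
  refine sy_elim (fun U x =>
    (∀ a, S.EN U a x → ∃! b, Sat (S.EN U) φ (update (update (fun n => cg U (v n)) 0 a) 1 b)) →
    ∃ y, ∀ b, S.EN U b y ↔ ∃ a, S.EN U a x ∧
      Sat (S.EN U) φ (update (update (fun n => cg U (v n)) 0 a) 1 b))
    (fun W x ⟨K, hK, hx⟩ hW => ?_) V x
  obtain ⟨L, hL, h1, h2⟩ := S.inf H K hH hK
  obtain ⟨y0, hy0⟩ := exists_collectN x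
    (fun U a b => Sat (S.EN U) φ (update (update (fun n => cg U (v n)) 0 a) 1 b))
  obtain ⟨p, -, hp⟩ := exists_set hL (fun U b => ∃ a, S.EN U a (cg U x) ∧
      Sat (S.EN U) φ (update (update (fun n => cg U (v n)) 0 a) 1 b) ∧
      ∀ b', Sat (S.EN U) φ (update (update (fun n => cg U (v n)) 0 a) 1 b') → b' = b)
    (fun g hg U a => by
      simp only [hx.fix (h2 hg) U, (iso g U).ex, (iso g U).all, sat_iso2 hv (h1 hg), Iso.mem, Iso.eq])
    y0 (fun U b ⟨a, ha, hb, hu⟩ => by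
      obtain ⟨b', h3, h4⟩ := hy0 U a ha ⟨b, hb⟩
      exact hu b' h4 ▸ h3)
  refine ⟨cg W p, fun b => (hp W b).trans ⟨fun ⟨a, ha, hb, _⟩ => ⟨a, ha, hb⟩,
    fun ⟨a, ha, hb⟩ => ⟨a, ha, hb, fun b' hb' => (hW a ha).unique hb' hb⟩⟩⟩

instance rep_suc (x y : S.GN) : Rep (fun U => Suc (S.EN U) (cg U x) (cg U y)) := by
  unfold Suc; infer_instance

instance rep_ind (x : S.GN) : Rep (fun U => Ind (S.EN U) (cg U x)) := by
  unfold Ind; infer_instance

instance rep_om (x : S.GN) : Rep (fun U => Om (S.EN U) (cg U x)) := by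
  unfold Om; infer_instance

instance rep_pr (x y p : S.GN) : Rep (fun U => Pr (S.EN U) (cg U x) (cg U y) (cg U p)) := by
  unfold Pr; infer_instance

instance rep_ap (f x y : S.GN) : Rep (fun U => Ap (S.EN U) (cg U f) (cg U x) (cg U y)) := by
  unfold Ap; infer_instance

instance rep_ap2 (f x y z : S.GN) :
    Rep (fun U => Ap2 (S.EN U) (cg U f) (cg U x) (cg U y) (cg U z)) := by
  unfold Ap2; infer_instance

instance rep_fn (A f : S.GN) (R : ∀ U : Ult B, S.N U → S.N U → Prop)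
    [∀ z z', Rep (fun U => R U (cg U z) (cg U z'))] :
    Rep (fun U : Ult B => Fn (S.EN U) (cg U A) (R U) (cg U f)) := by
  unfold Fn; infer_instance

instance rep_sub (x y : S.GN) : Rep (fun U => Sub (S.EN U) (cg U x) (cg U y)) := by
  unfold Sub; infer_instance

instance rep_bij (f x y : S.GN) : Rep (fun U => Bij (S.EN U) (cg U f) (cg U x) (cg U y)) := by
  unfold Bij; infer_instance

instance rep_isFin (x : S.GN) : Rep (fun U => IsFin (S.EN U) (cg U x)) := by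
  unfold IsFin; infer_instance

theorem exists_sucG (x : S.GN) (hx : S.Supp ⊤ x.1) :
    ∃ y : S.GN, S.Supp ⊤ y.1 ∧ ∀ U, Suc (S.EN U) (cg U x) (cg U y) := by
  obtain ⟨y, h1, h2⟩ := exists_elem ⊤ (fun U a => Suc (S.EN U) (cg U x) a)
    (fun g hg U a => by simp only [hx.fix hg U, Iso.suc])
  refine ⟨y, h1, fun U => ?_⟩
  obtain ⟨a, ha⟩ := exists_suc_of (pairN U) (unionN U) (cg U x)
  exact h2 U a ha (fun b hb => ext U _ _ fun z => (hb z).trans (ha z).symm) ▸ ha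

theorem supp_empG : S.Supp ⊤ (empG : S.GN).1 :=
  fun _ _ => feq_lst (Equiv.refl _) (fun i => i.elim) fun i => i.elim

/-- Numerals with their supports. -/
noncomputable def numS : ℕ → {x : S.GN // S.Supp ⊤ x.1}
  | 0 => ⟨empG, supp_empG⟩
  | n + 1 => ⟨(exists_sucG _ (numS n).2).choose, (exists_sucG _ (numS n).2).choose_spec.1⟩

/-- Numerals. -/
noncomputable def numG (n : ℕ) : S.GN := (numS n).1

theorem supp_numG (n : ℕ) : S.Supp ⊤ (numG n : S.GN).1 := (numS n).2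

theorem suc_numG (U : Ult B) (n : ℕ) : Suc (S.EN U) (cg U (numG n)) (cg U (numG (n + 1))) :=
  (exists_sucG _ (numS n).2).choose_spec.2 U

theorem mem_numG (U : Ult B) (n : ℕ) (z : S.N U) :
    S.EN U z (cg U (numG n)) ↔ ∃ k < n, z = cg U (numG k) := by
  induction n with
  | zero => exact iff_of_false (emp_empG U z) (by simp)
  | succ n ih =>
    rw [suc_numG U n z, ih]
    constructor
    · rintro (⟨k, hk, rfl⟩ | rfl)
      · exact ⟨k, by omega, rfl⟩
      · exact ⟨n, by omega, rfl⟩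
    · rintro ⟨k, hk, rfl⟩
      rcases Nat.lt_succ_iff_lt_or_eq.1 hk with h | rfl
      · exact Or.inl ⟨k, h, rfl⟩
      · exact Or.inr rfl

theorem supp_lst {ι : Type} {H : Subgroup S.G} {A : ι → S.GN} {v : ι → B}
    (h : ∀ g ∈ H, ∃ e : ι ≃ ι, (∀ i, Feq (act g (A i)).1 (A (e i)).1) ∧
      ∀ i, S.σ g (v i) = v (e i)) : S.Supp H (lst A v) := fun g hg => by
  obtain ⟨e, h1, h2⟩ := h g hg
  rw [nmap_lst]
  exact feq_lst e h1 h2

theorem supp_om : S.Supp ⊤ (lst (S := S) numG fun _ => ⊤) :=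
  supp_lst fun g hg => ⟨Equiv.refl _, fun i => supp_numG i g hg, fun _ => map_top _⟩

/-- The name of `ω`. -/
noncomputable def omG : S.GN := lstG numG (fun _ => ⊤) ⟨⊤, S.top, supp_om⟩

theorem num_mem_om (U : Ult B) (n : ℕ) : S.EN U (cg U (numG n)) (cg U omG) :=
  lst_intro numG _ U n U.top

theorem omG_elim (P : ∀ U : Ult B, S.N U → Prop) [∀ x, Rep (fun U => P U (cg U x))]
    (h : ∀ U n, P U (cg U (numG n))) (U : Ult B) (a : S.N U) (ha : S.EN U a (cg U omG)) : P U a :=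
  lst_elim numG _ P (fun U n _ => h U n) U a ha

theorem om_omG (U : Ult B) : Om (S.EN U) (cg U omG) := by
  refine ⟨⟨⟨_, emp_empG U, num_mem_om U 0⟩, ?_⟩, fun v hv x hx => ?_⟩
  · exact omG_elim (fun U x => ∃ y, Suc (S.EN U) x y ∧ S.EN U y (cg U omG))
      (fun V n => ⟨_, suc_numG V n, num_mem_om V _⟩) U
  · obtain ⟨v, rfl⟩ := cg_surj U v
    refine omG_elim (fun U x => Ind (S.EN U) (cg U v) → S.EN U x (cg U v)) (fun V n hv => ?_)
      U x hx hv
    induction n with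
    | zero =>
      obtain ⟨e, he, h⟩ := hv.1
      rwa [ext V e (cg V (numG 0)) fun z => iff_of_false (he z) (emp_empG V z)] at h
    | succ n ih =>
      obtain ⟨y, hy, h⟩ := hv.2 _ ih
      rwa [ext V y _ fun z => (hy z).trans (suc_numG V n z).symm] at h

variable (S) in
/-- The symmetric submodel is a model of ZF. -/
theorem zf (U : Ult B) : ZF (S.EN U) :=
  ⟨ext U, foundN U, pairN U, unionN U, powerN U, ⟨_, (om_omG U).1⟩, sepN U, replN U⟩

theorem numG_inj (U : Ult B) {m n : ℕ} : cg U (numG m : S.GN) = cg U (numG n) ↔ m = n := by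
  refine ⟨fun h => ?_, fun h => h ▸ rfl⟩
  by_contra hne
  rcases lt_or_gt_of_ne hne with h' | h'
  · exact (S.zf U).not_mem_self _ (h ▸ (mem_numG U n _).2 ⟨m, h', rfl⟩)
  · exact (S.zf U).not_mem_self _ (h ▸ (mem_numG U m _).2 ⟨n, h', rfl⟩)

theorem exists_opG (x y : S.GN) : ∃ p : S.GN, ∀ U, Pr (S.EN U) (cg U x) (cg U y) (cg U p) := by
  obtain ⟨p, hp⟩ := exists_wit (fun U a => Pr (S.EN U) (cg U x) (cg U y) a)
  exact ⟨p, fun U => hp U ((S.zf U).exists_pr _ _)⟩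

/-- Ordered pairs of good names. -/
noncomputable def opG (x y : S.GN) : S.GN := (exists_opG x y).choose

theorem pr_opG (U : Ult B) (x y : S.GN) : Pr (S.EN U) (cg U x) (cg U y) (cg U (opG x y)) :=
  (exists_opG x y).choose_spec U

theorem act_opG (g : S.G) {x y x' y' : S.GN} (hx : Feq (act g x).1 x'.1)
    (hy : Feq (act g y).1 y'.1) : Feq (act g (opG x y)).1 (opG x' y').1 := by
  intro U
  obtain ⟨V, rfl⟩ := umap_surj (S.σ g) U
  have := ((iso g V).pr _ _ _).2 (pr_opG V x y)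
  rw [iso_cg, iso_cg, iso_cg, cg_eq.2 (hx _), cg_eq.2 (hy _)] at this
  exact cg_eq.1 ((S.zf _).pr_unique this (pr_opG _ x' y'))

/-- The graph listing pairs of good names. -/
noncomputable def grG {ι : Type} (X Y : ι → S.GN)
    (h : S.Sy (lst (fun i => opG (X i) (Y i)) fun _ => ⊤)) : S.GN :=
  lstG (fun i => opG (X i) (Y i)) (fun _ => ⊤) h

theorem supp_gr {ι : Type} {H : Subgroup S.G} {X Y : ι → S.GN}
    (h : ∀ g ∈ H, ∃ e : ι ≃ ι, ∀ i, Feq (act g (X i)).1 (X (e i)).1 ∧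
      Feq (act g (Y i)).1 (Y (e i)).1) : S.Supp H (lst (fun i => opG (X i) (Y i)) fun _ => ⊤) :=
  supp_lst fun g hg => (h g hg).imp fun _ he =>
    ⟨fun i => act_opG g (he i).1 (he i).2, fun _ => map_top _⟩

theorem ap_grG {ι : Type} (X Y : ι → S.GN) (h) (U : Ult B) (i : ι) :
    Ap (S.EN U) (cg U (grG X Y h)) (cg U (X i)) (cg U (Y i)) :=
  ⟨_, pr_opG U _ _, lst_intro (fun i => opG (X i) (Y i)) _ U i U.top⟩

theorem grG_elim {ι : Type} (X Y : ι → S.GN) (h) (P : ∀ U : Ult B, S.N U → S.N U → Prop)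
    [∀ x y, Rep (fun U => P U (cg U x) (cg U y))] (hP : ∀ U i, P U (cg U (X i)) (cg U (Y i)))
    (U : Ult B) (a b : S.N U) (hab : Ap (S.EN U) (cg U (grG X Y h)) a b) : P U a b := by
  obtain ⟨p, hp, h'⟩ := hab
  refine lst_elim (fun i => opG (X i) (Y i)) _ (fun U p => ∀ a b, Pr (S.EN U) a b p → P U a b)
    ?_ U p h' a b hp
  intro V i _ a b hp
  obtain ⟨rfl, rfl⟩ := (S.zf V).pr_inj hp (pr_opG V (X i) (Y i))
  exact hP V i

theorem grG_dom {ι : Type} (X Y : ι → S.GN) (h) (A : S.GN)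
    (hA : ∀ (U : Ult B) i, S.EN U (cg U (X i)) (cg U A)) (U : Ult B) (p : S.N U)
    (hp : S.EN U p (cg U (grG X Y h))) : ∃ x y, S.EN U x (cg U A) ∧ Pr (S.EN U) x y p :=
  lst_elim (fun i => opG (X i) (Y i)) _
    (fun U p => ∃ x y, S.EN U x (cg U A) ∧ Pr (S.EN U) x y p)
    (fun V i _ => ⟨_, _, hA V i, pr_opG V _ _⟩) U p hp

end Sys

end Pool.Agent.Lib.SymForcing
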